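import Mathlib
import Pool.Agent.LGO.PW.Defs

/-!
# LGO/PWC: counting in one disc (note 3020 on MP_d83ecd_ag), definitions

`S` is a finite set of points of a disc, `v s` (`s ∈ S`) the vector of the eight entries of two integral
matrices `A = (v₀ v₁; v₂ v₃)`, `A' = (v₄ v₅; v₆ v₇)` with `A z₀ = z₁`, `A' z₀ = z₂` at `s`.
`rk v S b` is the rank of the monomials in `v` with exponents at most `b`, as functions on `S`.

PROOFS.  `rk_le`: the span has `(b + 1) ^ 8` generators (`finrank_range_le_card`).  `rk_mono`: the restriction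
`(S → ℂ) → (S' → ℂ)` maps the span for `S` onto the span for `S'`.  `rk_pos`: `α = 0` gives the constant function
`1 ≠ 0`.  `exists_rel`: `PW.Pt` for the pairs `(1, 0)`, `(2, 0)`; `v` is defined by choice on the points with `Pt` and
arbitrary elsewhere; the denominator is not `0`: otherwise both `g₁₀ z + g₁₁ = 0` and `g₀₀ z + g₀₁ = 0`, so
`det g = g₀₀ (g₁₀ z + g₁₁) - g₁₀ (g₀₀ z + g₀₁) = 0`.
-/

namespace Pool.Agent.LGO.PWC

open Metric MvPolynomial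

/-- the monomial with exponents `α` in the integers `v s` -/
noncomputable def mon {b : ℕ} (v : ℂ → Fin 8 → ℤ) (α : Fin 8 → Fin (b + 1)) (s : ℂ) : ℂ :=
  ∏ k, (v s k : ℂ) ^ (α k : ℕ)

/-- the rank of the monomials on the set `S` -/
noncomputable def rk (v : ℂ → Fin 8 → ℤ) (S : Finset ℂ) (b : ℕ) : ℕ :=
  Module.finrank ℂ (Submodule.span ℂ
    (Set.range fun (α : Fin 8 → Fin (b + 1)) (s : S) => mon v α (s : ℂ)))

/-- the relations between the values of `z` and the integers `v` at the point `s` -/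
structure Rel (z : Fin 3 → ℂ → ℂ) (v : ℂ → Fin 8 → ℤ) (s : ℂ) : Prop where
  d1 : (v s 2 : ℂ) * z 0 s + (v s 3 : ℂ) ≠ 0
  d2 : (v s 6 : ℂ) * z 0 s + (v s 7 : ℂ) ≠ 0
  r1 : z 1 s * ((v s 2 : ℂ) * z 0 s + (v s 3 : ℂ)) = (v s 0 : ℂ) * z 0 s + (v s 1 : ℂ)
  r2 : z 2 s * ((v s 6 : ℂ) * z 0 s + (v s 7 : ℂ)) = (v s 4 : ℂ) * z 0 s + (v s 5 : ℂ)

theorem rk_le (v : ℂ → Fin 8 → ℤ) (S : Finset ℂ) (b : ℕ) : rk v S b ≤ (b + 1) ^ 8 := by
  have h := finrank_range_le_card (R := ℂ)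
    (fun (α : Fin 8 → Fin (b + 1)) (s : S) => mon v α (s : ℂ))
  rw [Fintype.card_fun, Fintype.card_fin, Fintype.card_fin] at h
  exact h

theorem rk_mono (v : ℂ → Fin 8 → ℤ) {S S' : Finset ℂ} (h : S' ⊆ S) (b : ℕ) :
    rk v S' b ≤ rk v S b := by
  have h1 : Submodule.span ℂ (Set.range fun (α : Fin 8 → Fin (b + 1)) (s : S') => mon v α (s : ℂ)) =
      (Submodule.span ℂ (Set.range fun (α : Fin 8 → Fin (b + 1)) (s : S) => mon v α (s : ℂ))).map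
        (LinearMap.funLeft ℂ ℂ (fun s : S' => (⟨s.1, h s.2⟩ : S))) := by
    rw [Submodule.map_span, ← Set.range_comp]
    rfl
  unfold rk
  rw [h1]
  exact Submodule.finrank_map_le _ _

theorem rk_pos (v : ℂ → Fin 8 → ℤ) {S : Finset ℂ} (h : S.Nonempty) (b : ℕ) : 0 < rk v S b := by
  obtain ⟨s₀, hs₀⟩ := h
  unfold rk
  apply Submodule.one_le_finrank_iff.mpr
  intro h0
  have h1 : (fun s : S => mon v (fun _ : Fin 8 => (0 : Fin (b + 1))) (s : ℂ)) ∈ Submodule.span ℂ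
      (Set.range fun (α : Fin 8 → Fin (b + 1)) (s : S) => mon v α (s : ℂ)) :=
    Submodule.subset_span ⟨_, rfl⟩
  rw [h0, Submodule.mem_bot] at h1
  have h2 := congrFun h1 ⟨s₀, hs₀⟩
  simp [mon] at h2

private theorem Defs_den {g : Matrix (Fin 2) (Fin 2) ℤ} (hg : g.det ≠ 0) {τ τ' : ℂ} (h : Maps g τ τ') :
    (g 1 0 : ℂ) * τ + (g 1 1 : ℂ) ≠ 0 := by
  intro h0
  unfold Maps at h
  rw [h0, mul_zero] at h
  have h1 : (g 0 0 : ℂ) * (g 1 1 : ℂ) - (g 0 1 : ℂ) * (g 1 0 : ℂ) = 0 := by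
    linear_combination (g 0 0 : ℂ) * h0 + (g 1 0 : ℂ) * h
  rw [Matrix.det_fin_two] at hg
  apply hg
  exact_mod_cast h1

/-- the integers of the points of a chart -/
theorem exists_rel (H : ℝ) (z : Fin 3 → ℂ → ℂ) : ∃ v : ℂ → Fin 8 → ℤ, ∀ s, PW.Pt H z s →
    Rel z v s ∧ ∀ k, |(v s k : ℝ)| ≤ H := by
  have key : ∀ s, ∃ w : Fin 8 → ℤ, PW.Pt H z s →
      ((w 2 : ℂ) * z 0 s + (w 3 : ℂ) ≠ 0 ∧ (w 6 : ℂ) * z 0 s + (w 7 : ℂ) ≠ 0 ∧
        z 1 s * ((w 2 : ℂ) * z 0 s + (w 3 : ℂ)) = (w 0 : ℂ) * z 0 s + (w 1 : ℂ) ∧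
        z 2 s * ((w 6 : ℂ) * z 0 s + (w 7 : ℂ)) = (w 4 : ℂ) * z 0 s + (w 5 : ℂ)) ∧
      ∀ k, |(w k : ℝ)| ≤ H := by
    intro s
    by_cases hs : PW.Pt H z s
    · obtain ⟨g, hg, hgH, hgM⟩ := hs 1 0
      obtain ⟨g', hg', hgH', hgM'⟩ := hs 2 0
      refine ⟨![g 0 0, g 0 1, g 1 0, g 1 1, g' 0 0, g' 0 1, g' 1 0, g' 1 1], fun _ => ⟨⟨?_, ?_, ?_, ?_⟩, ?_⟩⟩
      · exact Defs_den hg hgM
      · exact Defs_den hg' hgM'
      · exact hgM
      · exact hgM'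
      · intro k
        fin_cases k
        · exact hgH 0 0
        · exact hgH 0 1
        · exact hgH 1 0
        · exact hgH 1 1
        · exact hgH' 0 0
        · exact hgH' 0 1
        · exact hgH' 1 0
        · exact hgH' 1 1
    · exact ⟨0, fun h => absurd h hs⟩
  choose v hv using key
  refine ⟨v, fun s hs => ⟨?_, (hv s hs).2⟩⟩
  obtain ⟨⟨h1, h2, h3, h4⟩, -⟩ := hv s hs
  exact ⟨h1, h2, h3, h4⟩

end Pool.Agent.LGO.PWC
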