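import Mathlib
import Pool.Agent.LGO.PWC.Defs

/-!
# LGO/PWC: growth of the ranks

PROOF of `grow`.  Let `Om(s) = (v₂ z₀ + v₃) ^ b (v₆ z₀ + v₇) ^ b ≠ 0` for `s ∈ S`.  Multiplication by `Om` (a nowhere
zero function on `S`) preserves linear independence.  By `r1`, `r2`, for `γ₀, γ₁, γ₂ ≤ b`
`z₀ ^ γ₀ z₁ ^ γ₁ z₂ ^ γ₂ Om = z₀ ^ γ₀ (v₀ z₀ + v₁) ^ γ₁ (v₂ z₀ + v₃) ^ (b - γ₁) (v₄ z₀ + v₅) ^ γ₂ (v₆ z₀ + v₇) ^ (b - γ₂)`.
Expand: it is a combination with integer coefficients of `z₀ ^ i v ^ β` with `i ≤ 3 b` and `β_k ≤ b` for all `k`.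
Multiplied by `v ^ α`, `α_k ≤ b`: all the functions `Om f` (`f` in the family) lie in the sum over `i ≤ 3 b` of the
images of the span `L` of the monomials with exponents `≤ 2 b` under multiplication by `z₀ ^ i`.  This sum has
dimension at most `(3 b + 1) dim L = (3 b + 1) rk v S (2 b)`.  The family has `(b + 1) ^ 3 ρ` members.
(Convenient: the set of functions `f` on `S` such that `f` lies in the span of `z₀ ^ i v ^ β`, `i ≤ I`, `β_k ≤ B_k`; products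
add `I` and `B`; each linear factor `v₀ z₀ + v₁` has `I = 1`, `B₀ = B₁ = 1`.)
-/

namespace Pool.Agent.LGO.PWC

open Metric MvPolynomial

/-- the span of the functions `z₀ ^ i v ^ β`, `i ≤ I`, `β ≤ B` -/
private noncomputable def GA (x : ℂ → ℂ) (v : ℂ → Fin 8 → ℤ) (S : Finset ℂ) (I : ℕ) (B : Fin 8 → ℕ) :
    Submodule ℂ (S → ℂ) :=
  Submodule.span ℂ {f | ∃ (i : ℕ) (β : Fin 8 → ℕ), i ≤ I ∧ β ≤ B ∧
    f = fun s : S => x (s : ℂ) ^ i * ∏ k, (v (s : ℂ) k : ℂ) ^ β k}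

private theorem GA_mono {x : ℂ → ℂ} {v : ℂ → Fin 8 → ℤ} {S : Finset ℂ} {I I' : ℕ} {B B' : Fin 8 → ℕ}
    (hI : I ≤ I') (hB : B ≤ B') : GA x v S I B ≤ GA x v S I' B' := by
  refine Submodule.span_mono ?_
  rintro f ⟨i, β, h1, h2, rfl⟩
  exact ⟨i, β, h1.trans hI, h2.trans hB, rfl⟩

private theorem GA_mul {x : ℂ → ℂ} {v : ℂ → Fin 8 → ℤ} {S : Finset ℂ} {I I' : ℕ} {B B' : Fin 8 → ℕ}
    {f g : S → ℂ} (hf : f ∈ GA x v S I B) (hg : g ∈ GA x v S I' B') :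
    f * g ∈ GA x v S (I + I') (B + B') := by
  have h := Submodule.mul_mem_mul hf hg
  rw [GA, GA, Submodule.span_mul_span] at h
  refine Submodule.span_mono ?_ h
  rintro _ ⟨a, ⟨i, β, h1, h2, rfl⟩, c, ⟨i', β', h1', h2', rfl⟩, rfl⟩
  refine ⟨i + i', β + β', add_le_add h1 h1', add_le_add h2 h2', ?_⟩
  funext s
  simp only [Pi.mul_apply, Pi.add_apply, pow_add, Finset.prod_mul_distrib]
  ring

private theorem GA_gen {x : ℂ → ℂ} {v : ℂ → Fin 8 → ℤ} {S : Finset ℂ} (i : ℕ) (β : Fin 8 → ℕ) :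
    (fun s : S => x (s : ℂ) ^ i * ∏ k, (v (s : ℂ) k : ℂ) ^ β k) ∈ GA x v S i β :=
  Submodule.subset_span ⟨i, β, le_rfl, le_rfl, rfl⟩

private theorem GA_one {x : ℂ → ℂ} {v : ℂ → Fin 8 → ℤ} {S : Finset ℂ} :
    (1 : S → ℂ) ∈ GA x v S 0 0 := by
  have h := GA_gen (x := x) (v := v) (S := S) 0 0
  have e : (fun s : S => x (s : ℂ) ^ 0 * ∏ k, (v (s : ℂ) k : ℂ) ^ (0 : Fin 8 → ℕ) k) = 1 := by
    funext s
    simp
  rwa [e] at h

private theorem GA_pow {x : ℂ → ℂ} {v : ℂ → Fin 8 → ℤ} {S : Finset ℂ} {I : ℕ} {B : Fin 8 → ℕ}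
    {f : S → ℂ} (hf : f ∈ GA x v S I B) (n : ℕ) : f ^ n ∈ GA x v S (n * I) (n • B) := by
  induction n with
  | zero => simpa using GA_one
  | succ n ih =>
    rw [pow_succ, Nat.succ_mul, succ_nsmul]
    exact GA_mul ih hf

private theorem GA_lin {x : ℂ → ℂ} {v : ℂ → Fin 8 → ℤ} {S : Finset ℂ} (i j : Fin 8) :
    (fun s : S => (v (s : ℂ) i : ℂ) * x (s : ℂ) + (v (s : ℂ) j : ℂ)) ∈
      GA x v S 1 (Pi.single i 1 + Pi.single j 1) := by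
  have h1 := GA_mono (le_refl 1) (show (Pi.single i 1 : Fin 8 → ℕ) ≤ Pi.single i 1 + Pi.single j 1 from
    fun k => Nat.le_add_right _ _) (GA_gen (x := x) (v := v) (S := S) 1 (Pi.single i 1))
  have h2 := GA_mono (Nat.zero_le 1) (show (Pi.single j 1 : Fin 8 → ℕ) ≤ Pi.single i 1 + Pi.single j 1 from
    fun k => Nat.le_add_left _ _) (GA_gen (x := x) (v := v) (S := S) 0 (Pi.single j 1))
  have h := Submodule.add_mem _ h1 h2
  have hs : ∀ (s : S) (l : Fin 8), ∏ k, (v (s : ℂ) k : ℂ) ^ (Pi.single l 1 : Fin 8 → ℕ) k =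
      (v (s : ℂ) l : ℂ) := by
    intro s l
    rw [Finset.prod_eq_single l]
    · simp
    · intro k _ hk
      simp [Pi.single_eq_of_ne hk]
    · intro hl
      exact absurd (Finset.mem_univ l) hl
  have e : (fun s : S => (v (s : ℂ) i : ℂ) * x (s : ℂ) + (v (s : ℂ) j : ℂ)) =
      (fun s : S => x (s : ℂ) ^ 1 * ∏ k, (v (s : ℂ) k : ℂ) ^ (Pi.single i 1 : Fin 8 → ℕ) k) +
      (fun s : S => x (s : ℂ) ^ 0 * ∏ k, (v (s : ℂ) k : ℂ) ^ (Pi.single j 1 : Fin 8 → ℕ) k) := by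
    funext s
    simp only [Pi.add_apply, hs]
    ring
  rw [e]
  exact h

private theorem GA_finrank (x : ℂ → ℂ) (v : ℂ → Fin 8 → ℤ) (S : Finset ℂ) (I c : ℕ) :
    Module.finrank ℂ (GA x v S I (fun _ => c)) ≤ (I + 1) * rk v S c := by
  classical
  set L : Submodule ℂ (S → ℂ) := Submodule.span ℂ
    (Set.range fun (α : Fin 8 → Fin (c + 1)) (s : S) => mon v α (s : ℂ)) with hL
  let Φ : (Fin (I + 1) → L) →ₗ[ℂ] (S → ℂ) :=
    { toFun := fun l => ∑ i : Fin (I + 1), (fun s : S => x (s : ℂ) ^ (i : ℕ)) * (l i : S → ℂ)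
      map_add' := by
        intro l l'
        simp only [Pi.add_apply, Submodule.coe_add, mul_add, Finset.sum_add_distrib]
      map_smul' := by
        intro a l
        simp only [Pi.smul_apply, Submodule.coe_smul, mul_smul_comm, Finset.smul_sum,
          RingHom.id_apply] }
  have hle : GA x v S I (fun _ => c) ≤ LinearMap.range Φ := by
    refine Submodule.span_le.2 ?_
    rintro f ⟨i, β, hi, hβ, rfl⟩
    have hm : (fun s : S => ∏ k, (v (s : ℂ) k : ℂ) ^ β k) ∈ L := by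
      refine Submodule.subset_span ⟨fun k => ⟨β k, Nat.lt_succ_of_le (hβ k)⟩, ?_⟩
      funext s
      rfl
    refine ⟨Pi.single (⟨i, Nat.lt_succ_of_le hi⟩ : Fin (I + 1)) (⟨_, hm⟩ : L), ?_⟩
    change ∑ j : Fin (I + 1), (fun s : S => x (s : ℂ) ^ (j : ℕ)) *
      ((Pi.single (⟨i, Nat.lt_succ_of_le hi⟩ : Fin (I + 1)) (⟨_, hm⟩ : L) : Fin (I + 1) → L) j :
        S → ℂ) = _
    rw [Finset.sum_eq_single (⟨i, Nat.lt_succ_of_le hi⟩ : Fin (I + 1))]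
    · rw [Pi.single_eq_same]
      rfl
    · intro j _ hj
      rw [Pi.single_eq_of_ne hj]
      simp
    · intro h
      exact absurd (Finset.mem_univ _) h
  calc Module.finrank ℂ (GA x v S I (fun _ => c)) ≤ Module.finrank ℂ (LinearMap.range Φ) :=
        Submodule.finrank_mono hle
    _ ≤ Module.finrank ℂ (Fin (I + 1) → L) := LinearMap.finrank_range_le Φ
    _ = (I + 1) * rk v S c := by
        rw [Module.finrank_pi_fintype]
        simp only [Finset.sum_const, Finset.card_univ, Fintype.card_fin, smul_eq_mul]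
        rfl

theorem grow {z : Fin 3 → ℂ → ℂ} {v : ℂ → Fin 8 → ℤ} {S : Finset ℂ} (hS : ∀ s ∈ S, Rel z v s)
    {b ρ : ℕ} (t : Fin ρ → Fin 8 → Fin (b + 1))
    (hli : LinearIndependent ℂ (fun (p : (Fin 3 → Fin (b + 1)) × Fin ρ) (s : S) =>
      (∏ i, z i (s : ℂ) ^ (p.1 i : ℕ)) * mon v (t p.2) (s : ℂ))) :
    ρ * (b + 1) ^ 3 ≤ (3 * b + 1) * rk v S (2 * b) := by
  classical
  let Om : S → ℂ := fun s => ((v (s : ℂ) 2 : ℂ) * z 0 (s : ℂ) + (v (s : ℂ) 3 : ℂ)) ^ b *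
    ((v (s : ℂ) 6 : ℂ) * z 0 (s : ℂ) + (v (s : ℂ) 7 : ℂ)) ^ b
  have hOm : ∀ s, Om s ≠ 0 := fun s =>
    mul_ne_zero (pow_ne_zero _ (hS _ s.2).d1) (pow_ne_zero _ (hS _ s.2).d2)
  have hli' := hli.map' (LinearMap.mulLeft ℂ Om) (by
    rw [LinearMap.ker_eq_bot]
    intro f g hfg
    funext s
    have h := congrFun hfg s
    exact mul_left_cancel₀ (hOm s) h)
  have hmem : ∀ p : (Fin 3 → Fin (b + 1)) × Fin ρ,
      ((LinearMap.mulLeft ℂ Om) ∘ (fun (p : (Fin 3 → Fin (b + 1)) × Fin ρ) (s : S) =>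
        (∏ i, z i (s : ℂ) ^ (p.1 i : ℕ)) * mon v (t p.2) (s : ℂ))) p ∈
        GA (z 0) v S (3 * b) (fun _ => 2 * b) := by
    intro p
    obtain ⟨γ, r⟩ := p
    have hγ : ∀ i, (γ i : ℕ) ≤ b := fun i => Nat.le_of_lt_succ (γ i).2
    have hα : ∀ k, (t r k : ℕ) ≤ b := fun k => Nat.le_of_lt_succ (t r k).2
    have m0 := GA_gen (x := z 0) (v := v) (S := S) (γ 0 : ℕ) (fun k => (t r k : ℕ))
    have m1 := GA_pow (GA_lin (x := z 0) (v := v) (S := S) 0 1) (γ 1 : ℕ)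
    have m2 := GA_pow (GA_lin (x := z 0) (v := v) (S := S) 2 3)
      (b - (γ 1 : ℕ))
    have m3 := GA_pow (GA_lin (x := z 0) (v := v) (S := S) 4 5) (γ 2 : ℕ)
    have m4 := GA_pow (GA_lin (x := z 0) (v := v) (S := S) 6 7)
      (b - (γ 2 : ℕ))
    have m := GA_mul m0 (GA_mul (GA_mul m1 m2) (GA_mul m3 m4))
    have e : ((LinearMap.mulLeft ℂ Om) ∘ (fun (p : (Fin 3 → Fin (b + 1)) × Fin ρ) (s : S) =>
        (∏ i, z i (s : ℂ) ^ (p.1 i : ℕ)) * mon v (t p.2) (s : ℂ))) (γ, r) =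
        (fun s : S => z 0 (s : ℂ) ^ (γ 0 : ℕ) * ∏ k, (v (s : ℂ) k : ℂ) ^ ((t r k : ℕ))) *
        (((fun s : S => (v (s : ℂ) 0 : ℂ) * z 0 (s : ℂ) + (v (s : ℂ) 1 : ℂ)) ^ (γ 1 : ℕ) *
          (fun s : S => (v (s : ℂ) 2 : ℂ) * z 0 (s : ℂ) + (v (s : ℂ) 3 : ℂ)) ^ (b - (γ 1 : ℕ))) *
        ((fun s : S => (v (s : ℂ) 4 : ℂ) * z 0 (s : ℂ) + (v (s : ℂ) 5 : ℂ)) ^ (γ 2 : ℕ) *
          (fun s : S => (v (s : ℂ) 6 : ℂ) * z 0 (s : ℂ) + (v (s : ℂ) 7 : ℂ)) ^ (b - (γ 2 : ℕ)))) := by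
      funext s
      have hR := hS _ s.2
      have e1 : z 1 (s : ℂ) ^ (γ 1 : ℕ) *
          ((v (s : ℂ) 2 : ℂ) * z 0 (s : ℂ) + (v (s : ℂ) 3 : ℂ)) ^ b =
          ((v (s : ℂ) 0 : ℂ) * z 0 (s : ℂ) + (v (s : ℂ) 1 : ℂ)) ^ (γ 1 : ℕ) *
          ((v (s : ℂ) 2 : ℂ) * z 0 (s : ℂ) + (v (s : ℂ) 3 : ℂ)) ^ (b - (γ 1 : ℕ)) := by
        rw [← hR.r1, mul_pow, mul_assoc, ← pow_add, Nat.add_sub_cancel' (hγ 1)]
      have e2 : z 2 (s : ℂ) ^ (γ 2 : ℕ) *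
          ((v (s : ℂ) 6 : ℂ) * z 0 (s : ℂ) + (v (s : ℂ) 7 : ℂ)) ^ b =
          ((v (s : ℂ) 4 : ℂ) * z 0 (s : ℂ) + (v (s : ℂ) 5 : ℂ)) ^ (γ 2 : ℕ) *
          ((v (s : ℂ) 6 : ℂ) * z 0 (s : ℂ) + (v (s : ℂ) 7 : ℂ)) ^ (b - (γ 2 : ℕ)) := by
        rw [← hR.r2, mul_pow, mul_assoc, ← pow_add, Nat.add_sub_cancel' (hγ 2)]
      simp only [Function.comp_apply, LinearMap.mulLeft_apply, Pi.mul_apply, Pi.pow_apply, Om, mon,
        Fin.prod_univ_three]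
      rw [← e1, ← e2]
      ring
    rw [e]
    refine GA_mono ?_ ?_ m
    · have h0 := hγ 0
      have h1 := hγ 1
      have h2 := hγ 2
      omega
    · intro k
      have h1 := hγ 1
      have h2 := hγ 2
      have h3 := hα k
      fin_cases k <;> simp at h3 ⊢ <;> omega
  have hspan := finrank_span_eq_card hli'
  have hle : Submodule.span ℂ (Set.range ((LinearMap.mulLeft ℂ Om) ∘
      (fun (p : (Fin 3 → Fin (b + 1)) × Fin ρ) (s : S) =>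
        (∏ i, z i (s : ℂ) ^ (p.1 i : ℕ)) * mon v (t p.2) (s : ℂ)))) ≤
      GA (z 0) v S (3 * b) (fun _ => 2 * b) := by
    refine Submodule.span_le.2 ?_
    rintro _ ⟨p, rfl⟩
    exact hmem p
  have h := (Submodule.finrank_mono hle).trans (GA_finrank (z 0) v S (3 * b) (2 * b))
  rw [hspan] at h
  simp only [Fintype.card_prod, Fintype.card_fun, Fintype.card_fin] at h
  rw [mul_comm ρ]
  exact h

end Pool.Agent.LGO.PWC
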