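import Mathlib

/-!
# LGO/PWC: choice of the scale

PROOFS.  `scale_exists`: otherwise `h (2 ^ (i + 1)) > 2 ^ 9 h (2 ^ i)` for all `i₀ ≤ i < 9 i₀ + 9`, so
`h (2 ^ (9 i₀ + 9)) ≥ 2 ^ (9 (8 i₀ + 9)) = 2 ^ (72 i₀ + 81)`, but `h (2 ^ (9 i₀ + 9)) ≤ (2 ^ (9 i₀ + 9) + 1) ^ 8 ≤ 2 ^ (8 (9 i₀ + 10)) = 2 ^ (72 i₀ + 80)`.
`psi_le`: the factors are `≤ (2 ^ i + 1) ^ 8 ≤ 2 ^ (8 (i + 1)) ≤ 2 ^ (8 (9 i₀ + 10))` and there are at most `9 i₀ + 10` of them (`≥ 8 i₀ + 10` in fact):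
`8 (9 i₀ + 10) ^ 2`.  `psi_half`: product over the other indices is monotone (`Finset.prod_le_prod'`).
`small`: `2 ^ (-j) (j + 1) ^ 2 → 0`.
-/

namespace Pool.Agent.LGO.PWC

theorem scale_exists {h : ℕ → ℕ} (h1 : ∀ b, 0 < h b) (h8 : ∀ b, h b ≤ (b + 1) ^ 8) (i₀ : ℕ) :
    ∃ i, i₀ ≤ i ∧ i < 9 * i₀ + 9 ∧ h (2 ^ (i + 1)) ≤ 2 ^ 9 * h (2 ^ i) := by
  by_contra hcon
  push Not at hcon
  have key : ∀ k, k ≤ 8 * i₀ + 9 → 2 ^ (9 * k) ≤ h (2 ^ (i₀ + k)) := by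
    intro k
    induction k with
    | zero =>
      intro _
      have h0 := h1 (2 ^ i₀)
      simp only [mul_zero, pow_zero, add_zero]
      omega
    | succ k ih =>
      intro hk
      have h2 := hcon (i₀ + k) (by omega) (by omega)
      have h3 := ih (by omega)
      calc 2 ^ (9 * (k + 1)) = 2 ^ 9 * 2 ^ (9 * k) := by rw [← pow_add]; ring_nf
        _ ≤ 2 ^ 9 * h (2 ^ (i₀ + k)) := Nat.mul_le_mul_left _ h3
        _ ≤ h (2 ^ (i₀ + k + 1)) := h2.le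
  have h4 := key (8 * i₀ + 9) le_rfl
  have h5 := h8 (2 ^ (i₀ + (8 * i₀ + 9)))
  have h6 : (2 ^ (i₀ + (8 * i₀ + 9)) + 1) ^ 8 ≤ 2 ^ ((9 * i₀ + 10) * 8) := by
    rw [pow_mul]
    apply Nat.pow_le_pow_left
    have h7 : 1 ≤ 2 ^ (i₀ + (8 * i₀ + 9)) := Nat.one_le_two_pow
    calc 2 ^ (i₀ + (8 * i₀ + 9)) + 1 ≤ 2 ^ (i₀ + (8 * i₀ + 9)) + 2 ^ (i₀ + (8 * i₀ + 9)) := by
          omega
      _ = 2 ^ (9 * i₀ + 10) := by rw [← two_mul, ← pow_succ']; ring_nf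
  have h8' := h4.trans (h5.trans h6)
  have h9 := (Nat.pow_le_pow_iff_right (by norm_num : 1 < 2)).1 h8'
  omega

/-- the product of the ranks over the scales -/
def psi (h : ℕ → ℕ) (i₀ : ℕ) : ℕ := ∏ i ∈ Finset.Icc i₀ (9 * i₀ + 9), h (2 ^ i)

theorem psi_le {h : ℕ → ℕ} (h8 : ∀ b, h b ≤ (b + 1) ^ 8) (i₀ : ℕ) :
    psi h i₀ ≤ 2 ^ (8 * (9 * i₀ + 10) ^ 2) := by
  have h1 : ∀ i ∈ Finset.Icc i₀ (9 * i₀ + 9), h (2 ^ i) ≤ 2 ^ (8 * (9 * i₀ + 10)) := by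
    intro i hi
    rw [Finset.mem_Icc] at hi
    refine (h8 _).trans ?_
    rw [mul_comm 8, pow_mul]
    apply Nat.pow_le_pow_left
    have h7 : 1 ≤ 2 ^ i := Nat.one_le_two_pow
    calc 2 ^ i + 1 ≤ 2 ^ i + 2 ^ i := by omega
      _ = 2 ^ (i + 1) := by rw [← two_mul, ← pow_succ']
      _ ≤ 2 ^ (9 * i₀ + 10) := Nat.pow_le_pow_right (by norm_num) (by omega)
  calc psi h i₀ ≤ (2 ^ (8 * (9 * i₀ + 10))) ^ (Finset.Icc i₀ (9 * i₀ + 9)).card :=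
        Finset.prod_le_pow_card _ _ _ h1
    _ ≤ (2 ^ (8 * (9 * i₀ + 10))) ^ (9 * i₀ + 10) := by
        apply Nat.pow_le_pow_right (by positivity)
        rw [Nat.card_Icc]
        omega
    _ = 2 ^ (8 * (9 * i₀ + 10) ^ 2) := by
        rw [← pow_mul]
        congr 1
        ring

theorem psi_pos {h : ℕ → ℕ} (h1 : ∀ b, 0 < h b) (i₀ : ℕ) : 0 < psi h i₀ :=
  Finset.prod_pos fun _ _ => h1 _

theorem psi_half {h h' : ℕ → ℕ} (hle : ∀ b, h' b ≤ h b) {i₀ i : ℕ} (hi : i₀ ≤ i)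
    (hi' : i < 9 * i₀ + 9) (hh : 2 * h' (2 ^ i) ≤ h (2 ^ i)) : 2 * psi h' i₀ ≤ psi h i₀ := by
  have hmem : i ∈ Finset.Icc i₀ (9 * i₀ + 9) := Finset.mem_Icc.2 ⟨hi, hi'.le⟩
  rw [psi, psi, ← Finset.mul_prod_erase _ _ hmem, ← Finset.mul_prod_erase _ _ hmem, ← mul_assoc]
  exact Nat.mul_le_mul hh (Finset.prod_le_prod' fun _ _ => hle _)

/-- the parameters -/
theorem small {d : ℝ} (hd : 0 < d) : ∃ j : ℕ,
    4 * (1 / 2 : ℝ) ^ j * (8 * (9 * ((j : ℝ) + 17) + 10) ^ 2 + 1) ≤ d := by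
  have hr : |(1 / 2 : ℝ)| < 1 := by
    rw [abs_of_pos (by norm_num)]
    norm_num
  have t2 := (tendsto_pow_const_mul_const_pow_of_abs_lt_one 2 hr).const_mul (2592 : ℝ)
  have t1 := (tendsto_pow_const_mul_const_pow_of_abs_lt_one 1 hr).const_mul (93888 : ℝ)
  have t0 := (tendsto_pow_const_mul_const_pow_of_abs_lt_one 0 hr).const_mul (850212 : ℝ)
  have t := (t2.add t1).add t0
  simp only [mul_zero, add_zero] at t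
  obtain ⟨j, hj⟩ := (t.eventually (gt_mem_nhds hd)).exists
  refine ⟨j, le_of_eq_of_le ?_ hj.le⟩
  ring

end Pool.Agent.LGO.PWC
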