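import Mathlib

/-!
# LGO/PWC, module C5: search of a good disc (pigeonhole)

* `cover`: a nonempty finite subset `S` of `closedBall c R` has a point `s₀` with
  `#S ρ² ≤ 49 R² #(S ∩ closedBall s₀ ρ)` (`0 < ρ ≤ R`): squares of side `ρ/2`.
* `find_disc`: `S` finite in `closedBall w 1`, at most `T` points of `S` in every disc of radius `e`
  about a point of `S`; to every disc (centre `y ∈ S`, radius `r ≤ r₀`) a set `Z y r` of at most `n`
  points is assigned.  If `(4 η)^m r₀ ≤ e` and `49 (2n)^m T < #S r₀²`, there are a disc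
  `closedBall y r` and a point `u ∈ S` in it, of distance `≥ 2 η r` from `Z y r`, with
  `#S r₀² (η η')² ≤ 49 * 98 (2n)^m #(S ∩ closedBall u (η η' r))`.
  Proof: start with a disc of radius `r₀` containing many points; if at least half of the points of
  the disc have distance `≥ 2 η r` from `Z y r`, `cover` gives `u`; otherwise more than `1/(2n)` of
  the points lie within `2 η r` of one point of `Z y r`: pass to a disc of radius `4 η r` about one
  of them.
-/

namespace Pool.Agent.LGO.PWC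

open Metric

open Classical in
/-- the points of `S` in the closed disc of radius `r` about `y` -/
noncomputable def inb (S : Finset ℂ) (y : ℂ) (r : ℝ) : Finset ℂ :=
  S.filter fun s => s ∈ closedBall y r

theorem mem_inb {S : Finset ℂ} {y : ℂ} {r : ℝ} {s : ℂ} :
    s ∈ inb S y r ↔ s ∈ S ∧ s ∈ closedBall y r := by
  classical
  simp only [inb, Finset.mem_filter]

theorem cover (S : Finset ℂ) (hne : S.Nonempty) {c : ℂ} {R ρ : ℝ} (hρ : 0 < ρ) (hρR : ρ ≤ R)
    (hS : ∀ s ∈ S, s ∈ closedBall c R) :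
    ∃ s₀ ∈ S, (S.card : ℝ) * ρ ^ 2 ≤ 49 * R ^ 2 * ((inb S s₀ ρ).card : ℝ) := by
  classical
  have hR : 0 < R := lt_of_lt_of_le hρ hρR
  set N : ℕ := ⌈2 * R / ρ⌉₊ with hN
  have hN1 : 2 * R / ρ ≤ (N : ℝ) := Nat.le_ceil _
  have hN2 : (N : ℝ) < 2 * R / ρ + 1 := Nat.ceil_lt_add_one (by positivity)
  set g : ℂ → ℤ × ℤ := fun s => (⌊(s - c).re / (ρ / 2)⌋, ⌊(s - c).im / (ρ / 2)⌋) with hg
  set t : Finset (ℤ × ℤ) := Finset.Icc (-(N : ℤ)) N ×ˢ Finset.Icc (-(N : ℤ)) N with ht
  have hfl : ∀ x : ℝ, |x| ≤ R → ⌊x / (ρ / 2)⌋ ∈ Finset.Icc (-(N : ℤ)) N := by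
    intro x hx
    obtain ⟨h1, h2⟩ := abs_le.1 hx
    have e1 : x / (ρ / 2) = 2 * x / ρ := by field_simp
    rw [Finset.mem_Icc]
    constructor
    · rw [Int.le_floor, e1]
      push_cast
      have h3 : -(2 * R / ρ) ≤ 2 * x / ρ := by
        rw [← neg_div]
        exact div_le_div_of_nonneg_right (by linarith) hρ.le
      linarith
    · have h3 : 2 * x / ρ ≤ 2 * R / ρ := div_le_div_of_nonneg_right (by linarith) hρ.le
      have h4 : ((⌊x / (ρ / 2)⌋ : ℤ) : ℝ) ≤ (N : ℝ) := by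
        rw [e1]
        exact (Int.floor_le _).trans (h3.trans hN1)
      exact_mod_cast h4
  have hmaps : ∀ s ∈ S, g s ∈ t := by
    intro s hs
    have h1 := hS s hs
    rw [mem_closedBall, dist_eq_norm] at h1
    rw [ht, Finset.mem_product]
    exact ⟨hfl _ ((Complex.abs_re_le_norm _).trans h1), hfl _ ((Complex.abs_im_le_norm _).trans h1)⟩
  have htc : (t.card : ℝ) * ρ ^ 2 ≤ 49 * R ^ 2 := by
    have h1 : t.card = (2 * N + 1) ^ 2 := by
      rw [ht, Finset.card_product, Int.card_Icc]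
      have : ((N : ℤ) + 1 - -(N : ℤ)).toNat = 2 * N + 1 := by omega
      rw [this]
      ring
    rw [h1]
    push_cast
    have h2 : (2 * (N : ℝ) + 1) * ρ ≤ 7 * R := by
      have h3 : (2 * (N : ℝ) + 1) * ρ ≤ (2 * (2 * R / ρ + 1) + 1) * ρ :=
        mul_le_mul_of_nonneg_right (by linarith) hρ.le
      have h4 : (2 * (2 * R / ρ + 1) + 1) * ρ = 4 * R + 3 * ρ := by
        field_simp
        ring
      linarith
    have h5 : 0 ≤ (2 * (N : ℝ) + 1) * ρ := by positivity
    calc (2 * (N : ℝ) + 1) ^ 2 * ρ ^ 2 = ((2 * (N : ℝ) + 1) * ρ) ^ 2 := by ring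
      _ ≤ (7 * R) ^ 2 := pow_le_pow_left₀ h5 h2 2
      _ = 49 * R ^ 2 := by ring
  -- the most populated square
  have htne : t.Nonempty := by
    obtain ⟨s, hs⟩ := hne
    exact ⟨g s, hmaps s hs⟩
  have hsum : (S.card : ℝ) = ∑ b ∈ t, ((S.filter fun s => g s = b).card : ℝ) := by
    exact_mod_cast Finset.card_eq_sum_card_fiberwise (fun s hs => hmaps s hs)
  obtain ⟨b, hb, hbmax⟩ := t.exists_max_image (fun b => (S.filter fun s => g s = b).card) htne
  have h1 : (S.card : ℝ) ≤ t.card * ((S.filter fun s => g s = b).card : ℝ) := by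
    rw [hsum, ← nsmul_eq_mul]
    refine Finset.sum_le_card_nsmul _ _ _ ?_
    intro b' hb'
    exact_mod_cast hbmax b' hb'
  have hSpos : (0 : ℝ) < S.card := by exact_mod_cast hne.card_pos
  have hbne : (S.filter fun s => g s = b).Nonempty := by
    rw [Finset.nonempty_iff_ne_empty]
    intro h
    rw [h, Finset.card_empty, Nat.cast_zero, mul_zero] at h1
    linarith
  obtain ⟨s₀, hs₀⟩ := hbne
  obtain ⟨hs₀S, hs₀b⟩ := Finset.mem_filter.1 hs₀
  refine ⟨s₀, hs₀S, ?_⟩
  have hsub : (S.filter fun s => g s = b) ⊆ inb S s₀ ρ := by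
    intro s hs
    obtain ⟨hsS, hsb⟩ := Finset.mem_filter.1 hs
    refine mem_inb.2 ⟨hsS, ?_⟩
    rw [mem_closedBall, dist_eq_norm]
    have hgg : g s = g s₀ := by rw [hsb, hs₀b]
    rw [hg] at hgg
    simp only [Prod.mk.injEq] at hgg
    have hkey : ∀ x y : ℝ, ⌊x / (ρ / 2)⌋ = ⌊y / (ρ / 2)⌋ → |x - y| ≤ ρ / 2 := by
      intro x y h
      have h2 := Int.abs_sub_lt_one_of_floor_eq_floor h
      rw [← sub_div, abs_div, abs_of_pos (by positivity : 0 < ρ / 2), div_lt_one (by positivity)] at h2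
      exact h2.le
    have h3 := hkey _ _ hgg.1
    have h4 := hkey _ _ hgg.2
    have e : s - s₀ = (s - c) - (s₀ - c) := by ring
    rw [e]
    refine (Complex.norm_le_abs_re_add_abs_im _).trans ?_
    rw [Complex.sub_re, Complex.sub_im]
    linarith
  have h2 : ((S.filter fun s => g s = b).card : ℝ) ≤
      ((inb S s₀ ρ).card : ℝ) := by
    exact_mod_cast Finset.card_le_card hsub
  calc (S.card : ℝ) * ρ ^ 2 ≤ (t.card * ((S.filter fun s => g s = b).card : ℝ)) * ρ ^ 2 :=
        mul_le_mul_of_nonneg_right h1 (by positivity)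
    _ = (t.card * ρ ^ 2) * ((S.filter fun s => g s = b).card : ℝ) := by ring
    _ ≤ (49 * R ^ 2) * ((inb S s₀ ρ).card : ℝ) :=
        mul_le_mul htc h2 (by positivity) (by positivity)

private theorem C5_step (S : Finset ℂ) {n T : ℕ} {η η' r₀ e : ℝ}
    (hη : 0 < η) (hη1 : η ≤ 1 / 4) (hη' : 0 < η') (hη'1 : η' ≤ 1)
    (htiny : ∀ y ∈ S, (inb S y e).card ≤ T)
    (Z : ℂ → ℝ → Finset ℂ) (hZ : ∀ y ∈ S, ∀ r, 0 < r → r ≤ r₀ → (Z y r).card ≤ n)
    (hn : 1 ≤ n) (k : ℕ) : ∀ y ∈ S, ∀ r, 0 < r → r ≤ r₀ → (4 * η) ^ k * r ≤ e →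
      (2 * (n : ℝ)) ^ k * T < ((inb S y r).card : ℝ) →
      ∃ y' ∈ S, ∃ r', 0 < r' ∧ r' ≤ r₀ ∧ ∃ u ∈ S, u ∈ closedBall y' r' ∧
        (∀ ζ ∈ Z y' r', 2 * η * r' ≤ ‖u - ζ‖) ∧
        ((inb S y r).card : ℝ) * (η * η') ^ 2 ≤
          98 * (2 * (n : ℝ)) ^ k * ((inb S u (η * η' * r')).card : ℝ) := by
  classical
  have hn1 : (1 : ℝ) ≤ (n : ℝ) := by exact_mod_cast hn
  induction k with
  | zero =>
    intro y hy r hr _ hre hT
    exfalso
    rw [pow_zero, one_mul] at hre hT
    have h1 : (inb S y r) ⊆ inb S y e := by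
      intro s hs
      obtain ⟨h2, h3⟩ := mem_inb.1 hs
      exact mem_inb.2 ⟨h2, closedBall_subset_closedBall hre h3⟩
    have h2 := (Finset.card_le_card h1).trans (htiny y hy)
    have h3 : ((inb S y r).card : ℝ) ≤ (T : ℝ) := by exact_mod_cast h2
    linarith
  | succ k ih =>
    intro y hy r hr hrr₀ hre hT
    set P : Finset ℂ := inb S y r with hP
    set G : Finset ℂ := P.filter fun s => ∀ ζ ∈ Z y r, 2 * η * r ≤ ‖s - ζ‖ with hG
    set Bd : Finset ℂ := P.filter fun s => ¬ ∀ ζ ∈ Z y r, 2 * η * r ≤ ‖s - ζ‖ with hBd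
    have hsplit : (G.card : ℝ) + (Bd.card : ℝ) = P.card := by
      exact_mod_cast Finset.card_filter_add_card_filter_not (s := P) _
    have hPpos : (0 : ℝ) < P.card := lt_of_le_of_lt (by positivity) hT
    have hK1 : (1 : ℝ) ≤ (2 * (n : ℝ)) ^ (k + 1) := one_le_pow₀ (by linarith)
    by_cases hgood : (P.card : ℝ) ≤ 2 * G.card
    · have hGne : G.Nonempty := by
        rw [Finset.nonempty_iff_ne_empty]
        intro h
        rw [h] at hgood
        simp at hgood
        have : (P.card : ℝ) = 0 := by rw [hgood]; simp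
        linarith
      have hηη : η * η' * r ≤ r := by
        have : η * η' ≤ 1 := by nlinarith
        nlinarith
      obtain ⟨u, huG, hu⟩ := cover G hGne (c := y) (R := r) (ρ := η * η' * r) (by positivity) hηη
        (fun s hs => (mem_inb.1 (Finset.mem_filter.1 hs).1).2)
      obtain ⟨huP, hud⟩ := Finset.mem_filter.1 huG
      obtain ⟨huS, huy⟩ := mem_inb.1 huP
      refine ⟨y, hy, r, hr, hrr₀, u, huS, huy, hud, ?_⟩
      have hsub : (inb G u (η * η' * r)) ⊆
          inb S u (η * η' * r) := by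
        intro s hs
        obtain ⟨h1, h2⟩ := mem_inb.1 hs
        exact mem_inb.2 ⟨(mem_inb.1 (Finset.mem_filter.1 h1).1).1, h2⟩
      have hc : ((inb G u (η * η' * r)).card : ℝ) ≤
          ((inb S u (η * η' * r)).card : ℝ) := by
        exact_mod_cast Finset.card_le_card hsub
      have hr2 : 0 < r ^ 2 := by positivity
      have h1 : (G.card : ℝ) * (η * η') ^ 2 ≤
          49 * ((inb G u (η * η' * r)).card : ℝ) := by
        have h2 : ((G.card : ℝ) * (η * η') ^ 2) * r ^ 2 ≤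
            (49 * ((inb G u (η * η' * r)).card : ℝ)) * r ^ 2 := by
          calc ((G.card : ℝ) * (η * η') ^ 2) * r ^ 2 = (G.card : ℝ) * (η * η' * r) ^ 2 := by ring
            _ ≤ 49 * r ^ 2 * ((inb G u (η * η' * r)).card : ℝ) := hu
            _ = _ := by ring
        exact le_of_mul_le_mul_right h2 hr2
      have h3 : 0 ≤ (η * η') ^ 2 := by positivity
      calc (P.card : ℝ) * (η * η') ^ 2 ≤ (2 * G.card) * (η * η') ^ 2 :=
            mul_le_mul_of_nonneg_right hgood h3
        _ = 2 * ((G.card : ℝ) * (η * η') ^ 2) := by ring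
        _ ≤ 2 * (49 * ((inb S u (η * η' * r)).card : ℝ)) := by
            linarith
        _ = 98 * 1 * ((inb S u (η * η' * r)).card : ℝ) := by ring
        _ ≤ 98 * (2 * (n : ℝ)) ^ (k + 1) *
              ((inb S u (η * η' * r)).card : ℝ) := by
            refine mul_le_mul_of_nonneg_right ?_ (by positivity)
            linarith
    · push Not at hgood
      have hbad : (P.card : ℝ) < 2 * Bd.card := by linarith
      -- one point of `Z` has many neighbours
      have hcov : Bd ⊆ (Z y r).biUnion fun ζ => P.filter fun s => ‖s - ζ‖ < 2 * η * r := by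
        intro s hs
        obtain ⟨h1, h2⟩ := Finset.mem_filter.1 hs
        push Not at h2
        obtain ⟨ζ, hζ, h3⟩ := h2
        exact Finset.mem_biUnion.2 ⟨ζ, hζ, Finset.mem_filter.2 ⟨h1, h3⟩⟩
      have hcard : Bd.card ≤ ∑ ζ ∈ Z y r, (P.filter fun s => ‖s - ζ‖ < 2 * η * r).card :=
        (Finset.card_le_card hcov).trans Finset.card_biUnion_le
      have hZne : (Z y r).Nonempty := by
        rw [Finset.nonempty_iff_ne_empty]
        intro h
        rw [h] at hcard
        simp at hcard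
        rw [hcard] at hbad
        simp at hbad
        linarith
      obtain ⟨ζ, hζ, hmax⟩ := (Z y r).exists_max_image
        (fun ζ => (P.filter fun s => ‖s - ζ‖ < 2 * η * r).card) hZne
      set Nr : Finset ℂ := P.filter fun s => ‖s - ζ‖ < 2 * η * r with hNr
      have h1 : (Bd.card : ℝ) ≤ n * Nr.card := by
        have h2 : Bd.card ≤ (Z y r).card * Nr.card := by
          refine hcard.trans ?_
          rw [← smul_eq_mul]
          exact Finset.sum_le_card_nsmul _ _ _ hmax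
        have h3 : Bd.card ≤ n * Nr.card :=
          h2.trans (Nat.mul_le_mul_right _ (hZ y hy r hr hrr₀))
        exact_mod_cast h3
      have h2 : (P.card : ℝ) < 2 * n * Nr.card := by linarith
      have hNrne : Nr.Nonempty := by
        rw [Finset.nonempty_iff_ne_empty]
        intro h
        rw [h] at h2
        simp at h2
        linarith
      obtain ⟨y', hy'⟩ := hNrne
      obtain ⟨hy'P, hy'ζ⟩ := Finset.mem_filter.1 hy'
      have hy'S : y' ∈ S := (mem_inb.1 hy'P).1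
      have hr' : 0 < 4 * η * r := by positivity
      have hr'r : 4 * η * r ≤ r := by nlinarith
      have hsub : Nr ⊆ inb S y' (4 * η * r) := by
        intro s hs
        obtain ⟨h3, h4⟩ := Finset.mem_filter.1 hs
        refine mem_inb.2 ⟨(mem_inb.1 h3).1, ?_⟩
        rw [mem_closedBall, dist_eq_norm]
        have e1 : s - y' = (s - ζ) - (y' - ζ) := by ring
        have e2 := norm_sub_le (s - ζ) (y' - ζ)
        rw [← e1] at e2
        linarith
      have hc : (Nr.card : ℝ) ≤ ((inb S y' (4 * η * r)).card : ℝ) := by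
        exact_mod_cast Finset.card_le_card hsub
      have h3 : (P.card : ℝ) ≤
          2 * n * ((inb S y' (4 * η * r)).card : ℝ) := by
        have : 2 * (n : ℝ) * Nr.card ≤
            2 * n * ((inb S y' (4 * η * r)).card : ℝ) :=
          mul_le_mul_of_nonneg_left hc (by positivity)
        linarith
      have hT' : (2 * (n : ℝ)) ^ k * T <
          ((inb S y' (4 * η * r)).card : ℝ) := by
        have h4 : 2 * (n : ℝ) * ((2 * (n : ℝ)) ^ k * T) <
            2 * (n : ℝ) * ((inb S y' (4 * η * r)).card : ℝ) := by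
          calc 2 * (n : ℝ) * ((2 * (n : ℝ)) ^ k * T) = (2 * (n : ℝ)) ^ (k + 1) * T := by ring
            _ < P.card := hT
            _ ≤ _ := h3
        exact lt_of_mul_lt_mul_left h4 (by positivity)
      obtain ⟨y'', hy'', r'', hr'', hr''₀, u, huS, huy, hud, hfin⟩ := ih y' hy'S (4 * η * r) hr'
        (hr'r.trans hrr₀) (by rw [← mul_assoc, ← pow_succ]; exact hre) hT'
      refine ⟨y'', hy'', r'', hr'', hr''₀, u, huS, huy, hud, ?_⟩
      have h5 : 0 ≤ (η * η') ^ 2 := by positivity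
      calc (P.card : ℝ) * (η * η') ^ 2
          ≤ (2 * n * ((inb S y' (4 * η * r)).card : ℝ)) *
              (η * η') ^ 2 := mul_le_mul_of_nonneg_right h3 h5
        _ = 2 * n * (((inb S y' (4 * η * r)).card : ℝ) *
              (η * η') ^ 2) := by ring
        _ ≤ 2 * n * (98 * (2 * (n : ℝ)) ^ k *
              ((inb S u (η * η' * r'')).card : ℝ)) :=
            mul_le_mul_of_nonneg_left hfin (by positivity)
        _ = 98 * (2 * (n : ℝ)) ^ (k + 1) *
              ((inb S u (η * η' * r'')).card : ℝ) := by ring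

theorem find_disc (S : Finset ℂ) {w : ℂ} (hS : ∀ s ∈ S, s ∈ closedBall w 1) {n m T : ℕ}
    (hn : 1 ≤ n) {η η' r₀ e : ℝ} (hη : 0 < η) (hη1 : η ≤ 1 / 4) (hη' : 0 < η') (hη'1 : η' ≤ 1)
    (hr₀ : 0 < r₀) (hr₀1 : r₀ ≤ 1) (hm : (4 * η) ^ m * r₀ ≤ e)
    (htiny : ∀ y ∈ S, (inb S y e).card ≤ T)
    (Z : ℂ → ℝ → Finset ℂ) (hZ : ∀ y ∈ S, ∀ r, 0 < r → r ≤ r₀ → (Z y r).card ≤ n)
    (hbig : 49 * (2 * (n : ℝ)) ^ m * T < S.card * r₀ ^ 2) :
    ∃ y ∈ S, ∃ r, 0 < r ∧ r ≤ r₀ ∧ ∃ u ∈ S, u ∈ closedBall y r ∧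
      (∀ ζ ∈ Z y r, 2 * η * r ≤ ‖u - ζ‖) ∧
      (S.card : ℝ) * r₀ ^ 2 * (η * η') ^ 2 ≤
        49 * 98 * (2 * (n : ℝ)) ^ m *
          ((inb S u (η * η' * r)).card : ℝ) := by
  classical
  have hSne : S.Nonempty := by
    rw [Finset.nonempty_iff_ne_empty]
    intro h
    rw [h] at hbig
    have : (0 : ℝ) ≤ 49 * (2 * (n : ℝ)) ^ m * T := by positivity
    simp at hbig
    linarith
  obtain ⟨y, hy, hcov⟩ := cover S hSne hr₀ hr₀1 hS
  rw [one_pow, mul_one] at hcov
  have h1 : (2 * (n : ℝ)) ^ m * T < ((inb S y r₀).card : ℝ) := by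
    nlinarith
  obtain ⟨y', hy', r', hr', hr'₀, u, hu, huy, hud, hfin⟩ :=
    C5_step S hη hη1 hη' hη'1 htiny Z hZ hn m y hy r₀ hr₀ le_rfl hm h1
  refine ⟨y', hy', r', hr', hr'₀, u, hu, huy, hud, ?_⟩
  calc (S.card : ℝ) * r₀ ^ 2 * (η * η') ^ 2
      ≤ (49 * ((inb S y r₀).card : ℝ)) * (η * η') ^ 2 :=
        mul_le_mul_of_nonneg_right hcov (by positivity)
    _ = 49 * (((inb S y r₀).card : ℝ) * (η * η') ^ 2) := by ring
    _ ≤ 49 * (98 * (2 * (n : ℝ)) ^ m *
          ((inb S u (η * η' * r')).card : ℝ)) := by linarith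
    _ = _ := by ring

end Pool.Agent.LGO.PWC
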