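import Mathlib

/-!
# LGO/PWC: the interpolation determinant

PROOF of `interp`.  Let `n = ρ K`.  If `ρ K = 0` the determinant is `1` and the right side is `1`.  Put
`Δ(x) = det(∑_q c_(q j)(x₀ + x (u_i - x₀)) y_(i q))`, holomorphic for `|x| < R / r` (`x₀ + x (u_i - x₀) ∈ ball x₀ R`), bounded there by
`n! (ρ M Y) ^ n`.  CLAIM: `Δ` vanishes at `x = 0` to order at least `ρ (K choose 2)`.  Then by the Schwarz lemma
(`Δ(x) / x ^ m` is holomorphic, maximum principle on `|x| = R'` for `R' → R / r`) `|Δ(1)| ≤ (r / R) ^ m n! (ρ M Y) ^ n`.  For `r < R` the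
point `x = 1` is inside.
Proof of the claim: row `i` of the matrix is `∑_κ x ^ κ (u_i - x₀) ^ κ ∑_q y_(i q) C_(q κ)`, where `C_(q κ)` is the vector of the `κ`-th Taylor
coefficients of `c_(q j)` at `x₀` (`j` varies).  By multilinearity the coefficient of `x ^ m` in `Δ` is the sum over
`(κ_i)` with `∑ κ_i = m` of the determinants with rows `(u_i - x₀) ^ κ_i ∑_q y_(i q) C_(q κ_i)`.  The rows with the same `κ` lie in
the span of the `ρ` vectors `C_(q κ)`, so the determinant vanishes if some `κ` is used by more than `ρ` rows.  If every `κ` is used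
at most `ρ` times, then `∑ κ_i ≥ ρ (0 + 1 + .. + (K - 1)) = ρ (K choose 2)` because there are `ρ K` rows.
(Alternative without infinite sums: replace each `c` by its Taylor polynomial of degree `< m` plus `x ^ m` times a
holomorphic function; or use the leading coefficient of `Δ`; an existing lemma of this kind may be in the engines, folders
`LGO/E3`, `LGO/E4`, `EllSch`, grep `det` and `Schwarz`.)
-/

namespace Pool.Agent.LGO.PWC

open Metric

namespace Interp

theorem sum_ge (ρ K : ℕ) (S : Finset (Fin ρ × ℕ)) (hS : S.card = ρ * K) :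
    ρ * K.choose 2 ≤ ∑ p ∈ S, p.2 := by
  classical
  let T : Finset (Fin ρ × ℕ) := Finset.univ ×ˢ Finset.range K
  have hT : T.card = ρ * K := by simp [T]
  have h1 : ∑ p ∈ T, ((p.2 : ℤ) - K) ≤ ∑ p ∈ T ∩ S, ((p.2 : ℤ) - K) := by
    rw [← Finset.sum_inter_add_sum_sdiff T S]
    have h : ∑ p ∈ T \ S, ((p.2 : ℤ) - K) ≤ 0 := by
      apply Finset.sum_nonpos
      intro p hp
      have := (Finset.mem_product.1 (Finset.mem_sdiff.1 hp).1).2
      have := Finset.mem_range.1 this
      omega
    linarith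
  have h2 : ∑ p ∈ S ∩ T, ((p.2 : ℤ) - K) ≤ ∑ p ∈ S, ((p.2 : ℤ) - K) := by
    rw [← Finset.sum_inter_add_sum_sdiff S T (fun p : Fin ρ × ℕ => ((p.2 : ℤ) - K))]
    have h : 0 ≤ ∑ p ∈ S \ T, ((p.2 : ℤ) - K) := by
      apply Finset.sum_nonneg
      intro p hp
      have h3 := (Finset.mem_sdiff.1 hp).2
      have h4 : ¬ p.2 < K := by
        intro h4
        exact h3 (Finset.mem_product.2 ⟨Finset.mem_univ _, Finset.mem_range.2 h4⟩)
      omega
    linarith
  rw [Finset.inter_comm] at h2
  have h3 := h1.trans h2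
  rw [Finset.sum_sub_distrib, Finset.sum_sub_distrib] at h3
  simp only [Finset.sum_const, hT, hS] at h3
  have h4 : ∑ p ∈ T, (p.2 : ℤ) = ((ρ * K.choose 2 : ℕ) : ℤ) := by
    simp only [T]
    rw [Finset.sum_product]
    simp only [Finset.sum_const, Finset.card_univ, Fintype.card_fin]
    have h5 : (∑ i ∈ Finset.range K, (i : ℤ)) = ((K.choose 2 : ℕ) : ℤ) := by
      rw [Nat.choose_two_right, ← Finset.sum_range_id]
      push_cast
      rfl
    rw [h5]
    push_cast
    simp
  rw [h4] at h3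
  have h6 : ((ρ * K.choose 2 : ℕ) : ℤ) ≤ ((∑ p ∈ S, p.2 : ℕ) : ℤ) := by
    push_cast at h3 ⊢
    linarith
  exact_mod_cast h6

theorem dvd_det {A : Type*} [CommRing A] {ρ K m : ℕ} (hm : m = ρ * K.choose 2) (X : A)
    (w : Fin (ρ * K) → Fin ρ × Fin m → A) (C : Fin ρ × Fin m → Fin (ρ * K) → A)
    (G : Fin (ρ * K) → Fin (ρ * K) → A) :
    X ^ m ∣ Matrix.det (Matrix.of fun i j =>
      ∑ p : Fin ρ × Fin m, X ^ (p.2 : ℕ) * w i p * C p j + X ^ m * G i j) := by
  classical
  let co : Fin (ρ * K) → Option (Fin ρ × Fin m) → A := fun i o =>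
    o.elim (X ^ m) (fun p => X ^ (p.2 : ℕ) * w i p)
  let ro : Fin (ρ * K) → Option (Fin ρ × Fin m) → Fin (ρ * K) → A := fun i o =>
    o.elim (G i) C
  have e1 : (Matrix.of fun i j =>
      ∑ p : Fin ρ × Fin m, X ^ (p.2 : ℕ) * w i p * C p j + X ^ m * G i j) =
      (fun i => ∑ o, co i o • ro i o : Matrix (Fin (ρ * K)) (Fin (ρ * K)) A) := by
    ext i j
    simp only [Matrix.of_apply, Finset.sum_apply, Pi.smul_apply, smul_eq_mul]
    rw [Fintype.sum_option]
    simp only [co, ro, Option.elim_none, Option.elim_some]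
    ring
  rw [e1]
  have e2 := (Matrix.detRowAlternating (n := Fin (ρ * K)) (R := A)).toMultilinearMap.map_sum
    (fun i o => co i o • ro i o)
  have e3 : Matrix.det (fun i => ∑ o, co i o • ro i o : Matrix (Fin (ρ * K)) (Fin (ρ * K)) A) =
      ∑ f : Fin (ρ * K) → Option (Fin ρ × Fin m), (∏ i, co i (f i)) *
        Matrix.det (fun i => ro i (f i) : Matrix (Fin (ρ * K)) (Fin (ρ * K)) A) := by
    refine e2.trans (Finset.sum_congr rfl fun f _ => ?_)
    exact (Matrix.detRowAlternating (n := Fin (ρ * K)) (R := A)).toMultilinearMap.map_smul_univ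
      (fun i => co i (f i)) (fun i => ro i (f i))
  rw [e3]
  apply Finset.dvd_sum
  intro f _
  by_cases h : ∃ i, f i = none
  · obtain ⟨i, hi⟩ := h
    apply Dvd.dvd.mul_right
    have : co i (f i) ∣ ∏ i, co i (f i) := Finset.dvd_prod_of_mem _ (Finset.mem_univ i)
    refine dvd_trans ?_ this
    rw [hi]
    simp [co]
  · push Not at h
    have hg : ∀ i, ∃ p, f i = some p := fun i => Option.ne_none_iff_exists'.1 (h i)
    choose g hg using hg
    by_cases hinj : Function.Injective g
    · apply Dvd.dvd.mul_right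
      have e4 : ∏ i, co i (f i) = X ^ (∑ i, ((g i).2 : ℕ)) * ∏ i, w i (g i) := by
        rw [← Finset.prod_pow_eq_pow_sum, ← Finset.prod_mul_distrib]
        apply Finset.prod_congr rfl
        intro i _
        rw [hg i]
        simp [co]
      rw [e4]
      apply Dvd.dvd.mul_right
      apply pow_dvd_pow
      let g' : Fin (ρ * K) → Fin ρ × ℕ := fun i => ((g i).1, ((g i).2 : ℕ))
      have hg' : Function.Injective g' := by
        intro i j hij
        apply hinj
        simp only [g', Prod.mk.injEq] at hij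
        exact Prod.ext hij.1 (Fin.ext hij.2)
      have h5 := sum_ge ρ K (Finset.univ.image g') (by
        rw [Finset.card_image_of_injective _ hg']
        simp)
      rw [Finset.sum_image (fun i _ j _ hij => hg' hij)] at h5
      exact hm.le.trans h5
    · have : ∃ i j, g i = g j ∧ i ≠ j := by
        rw [Function.Injective] at hinj
        push Not at hinj
        exact hinj
      obtain ⟨i, j, hij, hne⟩ := this
      have : Matrix.det (fun i => ro i (f i) : Matrix (Fin (ρ * K)) (Fin (ρ * K)) A) = 0 := by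
        apply Matrix.det_zero_of_row_eq hne
        rw [hg i, hg j, hij]
        simp [ro]
      rw [this, mul_zero]
      exact dvd_zero _

/-- The ring of the holomorphic functions on a disc. -/
def Hol (D : ℝ) : Subring (ℂ → ℂ) where
  carrier := {f | DifferentiableOn ℂ f (ball 0 D)}
  mul_mem' := fun ha hb => DifferentiableOn.mul ha hb
  one_mem' := differentiableOn_const 1
  add_mem' := fun ha hb => DifferentiableOn.add ha hb
  zero_mem' := differentiableOn_const 0
  neg_mem' := fun ha => DifferentiableOn.neg ha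

theorem taylor (m : ℕ) : ∀ (f : ℂ → ℂ) (D : ℝ), 0 < D → DifferentiableOn ℂ f (ball 0 D) →
    ∃ (C : ℕ → ℂ) (g : ℂ → ℂ), DifferentiableOn ℂ g (ball 0 D) ∧
      ∀ z, f z = ∑ κ : Fin m, z ^ (κ : ℕ) * C κ + z ^ m * g z := by
  induction m with
  | zero =>
    intro f D hD hf
    exact ⟨fun _ => 0, f, hf, fun z => by simp⟩
  | succ m ih =>
    intro f D hD hf
    have h1 : DifferentiableOn ℂ (dslope f 0) (ball 0 D) :=
      (Complex.differentiableOn_dslope (ball_mem_nhds 0 hD)).2 hf
    obtain ⟨C, g, hg, h⟩ := ih _ D hD h1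
    refine ⟨fun κ => if κ = 0 then f 0 else C (κ - 1), g, hg, fun z => ?_⟩
    have h2 : f z = f 0 + z * dslope f 0 z := by
      by_cases hz : z = 0
      · simp [hz]
      · rw [dslope_of_ne _ hz, slope_def_field]
        field_simp
        ring
    rw [h2, h z, Fin.sum_univ_succ]
    simp only [Fin.val_zero, pow_zero, one_mul, if_true, Fin.val_succ, Nat.add_sub_cancel,
      Nat.succ_ne_zero, if_false]
    rw [mul_add, Finset.mul_sum, ← add_assoc]
    congr 1
    · congr 1
      apply Finset.sum_congr rfl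
      intro κ _
      ring
    · ring

theorem schwarz {H : ℂ → ℂ} {D B : ℝ} (hD : 1 < D) (m : ℕ) (hH : DifferentiableOn ℂ H (ball 0 D))
    (hB : ∀ x ∈ ball (0 : ℂ) D, ‖x ^ m * H x‖ ≤ B) : ‖H 1‖ ≤ B * (1 / D) ^ m := by
  have key : ∀ D' : ℝ, 1 < D' → D' < D → ‖H 1‖ ≤ B * (1 / D') ^ m := by
    intro D' h1 h2
    have h0 : 0 < D' := by linarith
    apply Complex.norm_le_of_forall_mem_frontier_norm_le (U := ball (0 : ℂ) D') isBounded_ball
    · constructor
      · exact hH.mono (ball_subset_ball h2.le)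
      · rw [closure_ball _ h0.ne']
        exact (hH.mono (closedBall_subset_ball h2)).continuousOn
    · intro z hz
      rw [frontier_ball _ h0.ne', mem_sphere_zero_iff_norm] at hz
      have h3 := hB z (by rw [mem_ball_zero_iff]; linarith)
      rw [norm_mul, norm_pow, hz] at h3
      rw [one_div, inv_pow, ← div_eq_mul_inv, le_div_iff₀ (by positivity)]
      linarith
    · apply subset_closure
      simpa using h1
  have hlim : Filter.Tendsto (fun D' : ℝ => B * (1 / D') ^ m) (nhdsWithin D (Set.Iio D))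
      (nhds (B * (1 / D) ^ m)) := by
    apply tendsto_nhdsWithin_of_tendsto_nhds
    have : ContinuousAt (fun D' : ℝ => B * (1 / D') ^ m) D := by
      have : D ≠ 0 := by linarith
      fun_prop (disch := assumption)
    exact this
  apply ge_of_tendsto hlim
  have : Set.Ioo 1 D ∈ nhdsWithin D (Set.Iio D) := Ioo_mem_nhdsLT hD
  filter_upwards [this] with D' hD'
  exact key D' hD'.1 hD'.2

end Interp

open Interp in
theorem interp {ρ K : ℕ} {x₀ : ℂ} {r R M Y : ℝ} (hr : 0 < r) (hrR : r < R) (hM : 0 ≤ M)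
    (hY : 0 ≤ Y) (c : Fin ρ → Fin (ρ * K) → ℂ → ℂ)
    (hc : ∀ q j, DifferentiableOn ℂ (c q j) (ball x₀ R))
    (hcM : ∀ q j, ∀ s ∈ ball x₀ R, ‖c q j s‖ ≤ M) (u : Fin (ρ * K) → ℂ)
    (hu : ∀ i, ‖u i - x₀‖ ≤ r) (y : Fin (ρ * K) → Fin ρ → ℂ) (hy : ∀ i q, ‖y i q‖ ≤ Y) :
    ‖Matrix.det (Matrix.of fun i j => ∑ q, c q j (u i) * y i q)‖ ≤
      ((ρ * K).factorial : ℝ) * (ρ * M * Y) ^ (ρ * K) * (r / R) ^ (ρ * K.choose 2) := by
  classical
  have hR : 0 < R := hr.trans hrR
  set m := ρ * K.choose 2 with hm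
  have ht : ∀ q j, ∃ (C : ℕ → ℂ) (g : ℂ → ℂ), DifferentiableOn ℂ g (ball 0 R) ∧
      ∀ z, c q j (x₀ + z) = ∑ κ : Fin m, z ^ (κ : ℕ) * C κ + z ^ m * g z := by
    intro q j
    apply taylor m (fun z => c q j (x₀ + z)) R hR
    apply (hc q j).comp
    · fun_prop
    · intro z hz
      simpa [mem_ball, dist_eq_norm] using hz
  choose C g hg hC using ht
  set D := R / r with hD
  have hD1 : 1 < D := by rw [hD, one_lt_div hr]; exact hrR
  have hmem : ∀ i, ∀ x ∈ ball (0 : ℂ) D, ‖x * (u i - x₀)‖ < R := by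
    intro i x hx
    rw [mem_ball_zero_iff, hD, lt_div_iff₀ hr] at hx
    rw [norm_mul]
    calc ‖x‖ * ‖u i - x₀‖ ≤ ‖x‖ * r := by gcongr; exact hu i
      _ < R := hx
  have hGd : ∀ i j, (fun x => ∑ q, (u i - x₀) ^ m * g q j (x * (u i - x₀)) * y i q) ∈ Hol D := by
    intro i j
    change DifferentiableOn ℂ _ _
    apply DifferentiableOn.fun_sum
    intro q _
    apply DifferentiableOn.mul_const
    apply DifferentiableOn.const_mul
    apply (hg q j).comp
    · fun_prop
    · intro x hx
      rw [mem_ball_zero_iff]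
      exact hmem i x hx
  let X : Hol D := ⟨fun x => x, differentiableOn_id⟩
  let G : Fin (ρ * K) → Fin (ρ * K) → Hol D := fun i j => ⟨_, hGd i j⟩
  let cst : ℂ → Hol D := fun a => ⟨fun _ => a, differentiableOn_const a⟩
  obtain ⟨H, hH⟩ := dvd_det (A := Hol D) hm X
    (fun i p => cst ((u i - x₀) ^ (p.2 : ℕ) * y i p.1)) (fun p j => cst (C p.1 j p.2)) G
  have hev : ∀ x : ℂ, Matrix.det (Matrix.of fun i j => ∑ q, c q j (x₀ + x * (u i - x₀)) * y i q) =
      x ^ m * (H : ℂ → ℂ) x := by
    intro x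
    let ev : Hol D →+* ℂ := (Pi.evalRingHom (fun _ : ℂ => ℂ) x).comp (Hol D).subtype
    have h1 := congrArg ev hH
    rw [RingHom.map_det, map_mul, map_pow] at h1
    have h2 : ev X = x := rfl
    have h3 : ev H = (H : ℂ → ℂ) x := rfl
    rw [h2, h3] at h1
    rw [← h1]
    congr 1
    ext i j
    simp only [Matrix.of_apply, RingHom.mapMatrix_apply, Matrix.map_apply, map_add, map_sum,
      map_mul, map_pow, h2]
    have h4 : ev (G i j) = ∑ q, (u i - x₀) ^ m * g q j (x * (u i - x₀)) * y i q := rfl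
    have h5 : ∀ a, ev (cst a) = a := fun a => rfl
    rw [h4]
    simp only [h5]
    rw [Fintype.sum_prod_type, Finset.mul_sum, ← Finset.sum_add_distrib]
    apply Finset.sum_congr rfl
    intro q _
    rw [hC q j, add_mul, Finset.sum_mul]
    congr 1
    · apply Finset.sum_congr rfl
      intro κ _
      rw [mul_pow]
      ring
    · rw [mul_pow]
      ring
  have hB : ∀ x ∈ ball (0 : ℂ) D, ‖x ^ m * (H : ℂ → ℂ) x‖ ≤
      ((ρ * K).factorial : ℝ) * (ρ * M * Y) ^ (ρ * K) := by
    intro x hx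
    rw [← hev x]
    have h1 : ∀ i j, NormedField.toAbsoluteValue ℂ ((Matrix.of fun i j =>
        ∑ q, c q j (x₀ + x * (u i - x₀)) * y i q) i j) ≤ ρ * M * Y := by
      intro i j
      change ‖∑ q, c q j (x₀ + x * (u i - x₀)) * y i q‖ ≤ _
      refine (norm_sum_le _ _).trans ?_
      have : ∀ q ∈ Finset.univ, ‖c q j (x₀ + x * (u i - x₀)) * y i q‖ ≤ M * Y := by
        intro q _
        rw [norm_mul]
        have := hcM q j (x₀ + x * (u i - x₀)) (by
          rw [mem_ball, dist_eq_norm]
          simpa using hmem i x hx)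
        exact mul_le_mul this (hy i q) (norm_nonneg _) hM
      refine (Finset.sum_le_card_nsmul _ _ _ this).trans ?_
      simp [mul_assoc]
    have h2 := Matrix.det_le h1
    simp only [Fintype.card_fin, nsmul_eq_mul] at h2
    exact h2
  have h1 := schwarz hD1 m H.2 hB
  have h2 := hev 1
  rw [one_pow, one_mul] at h2
  have h3 : (1 / D) = r / R := by rw [hD]; field_simp
  rw [h3, ← h2] at h1
  simpa using h1

end Pool.Agent.LGO.PWC
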