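import Mathlib
import Pool.Agent.LGO.PWC.Defs

/-!
# LGO/PWC: vanishing minors

PROOFS.  `rk_lt`: if `rk v S b ≥ n`, there are `n` exponents `α₁, .., αₙ` such that the functions `v ^ (α_j)` on `S` are
linearly independent (a basis of the span among the generators, `exists_linearIndependent`).  The matrix
`(v_s ^ (α_j))_(s ∈ S, j)` has rank `n`, so `n` of its rows are linearly independent (row rank = column rank), and the
determinant of this square matrix is not `0`.  `det_zero`: the determinant is the image of an integer in `ℂ`.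
`mon_norm`: `|v_k| ≤ H`, `1 ≤ H`, `∑ α_k ≤ 8 b`.
-/

namespace Pool.Agent.LGO.PWC

open Metric

/-- `n` linearly independent vectors in a set whose span has dimension at least `n` -/
private lemma exists_fin_indep {V : Type*} [AddCommGroup V] [Module ℂ V] [FiniteDimensional ℂ V]
    (s : Set V) {n : ℕ} (hn : n ≤ Module.finrank ℂ (Submodule.span ℂ s)) :
    ∃ f : Fin n → V, (∀ i, f i ∈ s) ∧ LinearIndependent ℂ f := by
  obtain ⟨f, hf, -, hli⟩ := Submodule.exists_fun_fin_finrank_span_eq ℂ s
  exact ⟨fun i => f (Fin.castLE hn i), fun i => hf _, hli.comp _ (Fin.castLE_injective hn)⟩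

theorem rk_lt {v : ℂ → Fin 8 → ℤ} {S : Finset ℂ} {b n : ℕ}
    (h : ∀ (u : Fin n → S) (α : Fin n → Fin 8 → Fin (b + 1)),
      Matrix.det (Matrix.of fun i j => mon v (α j) (u i : ℂ)) = 0) (hn : 0 < n) : rk v S b < n := by
  by_contra hcon
  rw [not_lt] at hcon
  obtain ⟨f, hf, hli⟩ := exists_fin_indep _ hcon
  choose α hα using hf
  -- the matrix with the independent columns
  let G : Matrix S (Fin n) ℂ := Matrix.of fun s j => mon v (α j) (s : ℂ)
  have hcol : LinearIndependent ℂ G.col := by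
    have : G.col = f := by
      funext j
      rw [← hα j]
      rfl
    rw [this]
    exact hli
  have hrank : G.rank = n := by
    rw [Matrix.rank_eq_finrank_span_cols, finrank_span_eq_card hcol, Fintype.card_fin]
  have hrow : n ≤ Module.finrank ℂ (Submodule.span ℂ (Set.range G.row)) := by
    rw [← Matrix.rank_eq_finrank_span_row, hrank]
  obtain ⟨g, hg, hgi⟩ := exists_fin_indep _ hrow
  choose u hu using hg
  have hdet := h u α
  have hunit : IsUnit (Matrix.of fun i j => mon v (α j) (u i : ℂ) : Matrix (Fin n) (Fin n) ℂ) := by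
    rw [← Matrix.linearIndependent_rows_iff_isUnit]
    have : (Matrix.of fun i j => mon v (α j) (u i : ℂ) : Matrix (Fin n) (Fin n) ℂ).row = g := by
      funext i
      rw [← hu i]
      rfl
    rw [this]
    exact hgi
  rw [Matrix.isUnit_iff_isUnit_det, hdet] at hunit
  exact not_isUnit_zero hunit

theorem det_zero {v : ℂ → Fin 8 → ℤ} {b n : ℕ} (u : Fin n → ℂ) (α : Fin n → Fin 8 → Fin (b + 1))
    (h : ‖Matrix.det (Matrix.of fun i j => mon v (α j) (u i))‖ < 1) :
    Matrix.det (Matrix.of fun i j => mon v (α j) (u i)) = 0 := by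
  let M : Matrix (Fin n) (Fin n) ℤ := Matrix.of fun i j => ∏ k, (v (u i) k) ^ (α j k : ℕ)
  have hM : (Matrix.of fun i j => mon v (α j) (u i) : Matrix (Fin n) (Fin n) ℂ) =
      M.map (Int.cast : ℤ → ℂ) := by
    ext i j
    simp [M, mon, Matrix.map_apply]
  have hdet : Matrix.det (Matrix.of fun i j => mon v (α j) (u i) : Matrix (Fin n) (Fin n) ℂ) =
      ((M.det : ℤ) : ℂ) := by
    rw [hM]
    exact (Int.cast_det M).symm
  rw [hdet] at h ⊢
  rw [Complex.norm_intCast] at h
  have h1 : |M.det| < 1 := by exact_mod_cast h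
  rw [Int.abs_lt_one_iff.mp h1, Int.cast_zero]

theorem mon_norm {v : ℂ → Fin 8 → ℤ} {s : ℂ} {H : ℝ} (hH : 1 ≤ H) (hv : ∀ k, |(v s k : ℝ)| ≤ H)
    {b : ℕ} (α : Fin 8 → Fin (b + 1)) : ‖mon v α s‖ ≤ H ^ (8 * b) := by
  rw [mon, norm_prod]
  calc ∏ k, ‖(v s k : ℂ) ^ (α k : ℕ)‖ ≤ ∏ _k : Fin 8, H ^ b := by
        apply Finset.prod_le_prod
        · intro k _
          exact norm_nonneg _
        · intro k _
          rw [norm_pow, Complex.norm_intCast]
          calc |(v s k : ℝ)| ^ (α k : ℕ) ≤ H ^ (α k : ℕ) :=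
                pow_le_pow_left₀ (abs_nonneg _) (hv k) _
            _ ≤ H ^ b := pow_le_pow_right₀ hH (Nat.lt_succ_iff.mp (α k).2)
    _ = H ^ (8 * b) := by
        rw [Finset.prod_const, Finset.card_univ, Fintype.card_fin, ← pow_mul, mul_comm b 8]

end Pool.Agent.LGO.PWC
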