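import Pool.Agent.LGO.PW.Norm
import Pool.Agent.LGO.PW.Zeros

/-!
# LGO/PWC, module C3: quotients of functions with few zeros, at all scales

`FL n C R y f`: `f = U ∏ (s - ζ)` on the closed disc of radius `R` about `y`, with at most `n`
factors and `sup |U| ≤ C inf |U|`.

* `good_ratio`.  `f i` (`i` in a finite set) are functions with `FL` (or zero) on
  `closedBall y R`, `2 r ≤ R`.  Choose `f i = U_i ∏ (s - ζ_ij)`, `M_i = inf |U_i|`, and `i₀` with
  `T_i = M_i ∏_j (|y - ζ_ij| + r)` maximal, `Z` = the zeros of `f i₀`.  For `u` in `closedBall y r`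
  with distance `≥ 2 η r` from `Z` and `v` in `closedBall u (η r)`:
  `|f i v| ≤ C M_i ∏ (|y - ζ| + 2 r) ≤ C 2^n T_i`, and `|v - ζ| ≥ η r` for the zeros `ζ` of `f i₀`,
  `|y - ζ| + r ≤ |v - ζ| + 3 r ≤ (4/η) |v - ζ|`, so `|f i₀ v| ≥ (η/4)^n T_i₀ ≥ (η/4)^n T_i`.
* `fam_fl`.  `Fam` (doubling) gives `FL` on all the discs of radius `1/3` with centre in
  `closedBall w 1`: `zeros` on `ball w 3` gives a factorisation on `closedBall w 1`, hence a point
  `s₁`, `|s₁ - w| ≤ 1/3`, with `|f s₁| ≥ c/C''`; then `zeros` for `t ↦ f (w' + 5/6 t)`,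
  `w' = (w + y)/2`: `w' + 5/6 t` is in `ball w 3` for `|t| < 3`, and
  `closedBall y (1/3) ⊆ closedBall w' (5/6)`.
-/

namespace Pool.Agent.LGO.PWC

open Metric MvPolynomial

/-- `f = U ∏ (s - ζ)` on the closed disc of radius `R` about `y`, with at most `n` factors, and
`sup |U| ≤ C inf |U|`. -/
def FL (n : ℕ) (C R : ℝ) (y : ℂ) (f : ℂ → ℂ) : Prop :=
  ∃ (Z : List ℂ) (U : ℂ → ℂ) (M : ℝ), Z.length ≤ n ∧ 0 < M ∧
    (∀ s ∈ closedBall y R, f s = U s * (Z.map fun ζ => s - ζ).prod) ∧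
    (∀ s ∈ closedBall y R, ‖U s‖ ≤ C * M) ∧ ∀ s ∈ closedBall y R, M ≤ ‖U s‖

private theorem C3_prod_le (Z : List ℂ) (v : ℂ) (g : ℂ → ℝ) (h : ∀ ζ ∈ Z, ‖v - ζ‖ ≤ g ζ) :
    ‖(Z.map fun ζ => v - ζ).prod‖ ≤ (Z.map g).prod := by
  induction Z with
  | nil => simp
  | cons x Z ih =>
    simp only [List.map_cons, List.prod_cons, norm_mul]
    have h1 := h x (by simp)
    exact mul_le_mul h1 (ih fun ζ hζ => h ζ (by simp [hζ])) (norm_nonneg _)
      (le_trans (norm_nonneg _) h1)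

private theorem C3_prod_ge (Z : List ℂ) (v : ℂ) (g : ℂ → ℝ) (hg : ∀ ζ ∈ Z, 0 ≤ g ζ)
    (h : ∀ ζ ∈ Z, g ζ ≤ ‖v - ζ‖) : (Z.map g).prod ≤ ‖(Z.map fun ζ => v - ζ).prod‖ := by
  induction Z with
  | nil => simp
  | cons x Z ih =>
    simp only [List.map_cons, List.prod_cons, norm_mul]
    have h1 := h x (by simp)
    refine mul_le_mul h1 (ih (fun ζ hζ => hg ζ (by simp [hζ])) fun ζ hζ => h ζ (by simp [hζ]))
      ?_ (norm_nonneg _)
    exact List.prod_nonneg (by
      intro a ha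
      obtain ⟨ζ, hζ, rfl⟩ := List.mem_map.1 ha
      exact hg ζ (by simp [hζ]))

private theorem C3_prod_smul (Z : List ℂ) (c : ℝ) (g : ℂ → ℝ) :
    (Z.map fun ζ => c * g ζ).prod = c ^ Z.length * (Z.map g).prod := by
  induction Z with
  | nil => simp
  | cons x Z ih =>
    simp only [List.map_cons, List.prod_cons, List.length_cons, ih]
    ring

private theorem C3_prod_nonneg (Z : List ℂ) (g : ℂ → ℝ) (h : ∀ ζ, 0 ≤ g ζ) :
    0 ≤ (Z.map g).prod := by
  refine List.prod_nonneg ?_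
  intro a ha
  obtain ⟨ζ, _, rfl⟩ := List.mem_map.1 ha
  exact h ζ

private theorem C3_prod_pos (Z : List ℂ) (g : ℂ → ℝ) (h : ∀ ζ, 0 < g ζ) :
    0 < (Z.map g).prod := by
  induction Z with
  | nil => simp
  | cons x Z ih =>
    simp only [List.map_cons, List.prod_cons]
    exact mul_pos (h x) ih

theorem good_ratio (n : ℕ) {C R : ℝ} (hC : 1 ≤ C) {ι : Type} [Finite ι]
    (f : ι → ℂ → ℂ) (y : ℂ)
    (hfl : ∀ i, (∀ s ∈ closedBall y R, f i s = 0) ∨ FL n C R y (f i))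
    (hne : ∃ i, FL n C R y (f i)) {r : ℝ} (hr : 0 < r) (hrR : 2 * r ≤ R) :
    ∃ (i₀ : ι) (Z : Finset ℂ), Z.card ≤ n ∧ ∀ η : ℝ, 0 < η → η ≤ 1 → ∀ u ∈ closedBall y r,
      (∀ ζ ∈ Z, 2 * η * r ≤ ‖u - ζ‖) → ∀ v ∈ closedBall u (η * r), f i₀ v ≠ 0 ∧
        ∀ i, ‖f i v‖ * η ^ n ≤ C * 8 ^ n * ‖f i₀ v‖ := by
  classical
  -- the quantity `T i`
  have hT : ∀ i, ∃ T : ℝ, 0 ≤ T ∧ (FL n C R y (f i) → 0 < T) ∧
      (∀ v ∈ closedBall y (2 * r), ‖f i v‖ ≤ C * 2 ^ n * T) ∧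
      (0 < T → ∃ Z : Finset ℂ, Z.card ≤ n ∧ ∀ η : ℝ, 0 < η → η ≤ 1 → ∀ v ∈ closedBall y (2 * r),
        (∀ ζ ∈ Z, η * r ≤ ‖v - ζ‖) → (η / 4) ^ n * T ≤ ‖f i v‖) := by
    intro i
    by_cases hFL : FL n C R y (f i)
    · obtain ⟨Z, U, M, hlen, hM, heq, hup, hlo⟩ := hFL
      set g : ℂ → ℝ := fun ζ => ‖y - ζ‖ + r with hg
      have hg0 : ∀ ζ, 0 < g ζ := fun ζ => by rw [hg]; have := norm_nonneg (y - ζ); simp only; linarith
      refine ⟨M * (Z.map g).prod, (mul_pos hM (C3_prod_pos Z g hg0)).le,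
        fun _ => mul_pos hM (C3_prod_pos Z g hg0), ?_, fun _ => ⟨Z.toFinset, ?_, ?_⟩⟩
      · intro v hv
        have hvR : v ∈ closedBall y R := closedBall_subset_closedBall hrR hv
        rw [heq v hvR, norm_mul]
        have h1 : ‖(Z.map fun ζ => v - ζ).prod‖ ≤ (Z.map fun ζ => 2 * g ζ).prod := by
          refine C3_prod_le Z v _ ?_
          intro ζ _
          rw [mem_closedBall, dist_eq_norm] at hv
          have e1 : v - ζ = (v - y) + (y - ζ) := by ring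
          have e2 := norm_add_le (v - y) (y - ζ)
          rw [← e1] at e2
          rw [hg]
          simp only
          have := norm_nonneg (y - ζ)
          linarith
        rw [C3_prod_smul] at h1
        have h2 : (2 : ℝ) ^ Z.length ≤ 2 ^ n := pow_le_pow_right₀ (by norm_num) hlen
        have h3 : 0 ≤ (Z.map g).prod := (C3_prod_pos Z g hg0).le
        calc ‖U v‖ * ‖(Z.map fun ζ => v - ζ).prod‖
            ≤ (C * M) * (2 ^ Z.length * (Z.map g).prod) :=
              mul_le_mul (hup v hvR) h1 (norm_nonneg _) (by positivity)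
          _ ≤ (C * M) * (2 ^ n * (Z.map g).prod) := by
              refine mul_le_mul_of_nonneg_left ?_ (by positivity)
              exact mul_le_mul_of_nonneg_right h2 h3
          _ = C * 2 ^ n * (M * (Z.map g).prod) := by ring
      · exact (List.toFinset_card_le Z).trans hlen
      · intro η hη hη1 v hv hZ
        have hvR : v ∈ closedBall y R := closedBall_subset_closedBall hrR hv
        rw [heq v hvR, norm_mul]
        have h1 : (Z.map fun ζ => (η / 4) * g ζ).prod ≤ ‖(Z.map fun ζ => v - ζ).prod‖ := by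
          refine C3_prod_ge Z v _ (fun ζ _ => mul_nonneg (by positivity) (hg0 ζ).le) ?_
          intro ζ hζ
          have h5 := hZ ζ (by simpa using hζ)
          rw [mem_closedBall, dist_eq_norm] at hv
          have e1 : y - ζ = (v - ζ) - (v - y) := by ring
          have e2 := norm_sub_le (v - ζ) (v - y)
          rw [← e1] at e2
          rw [hg]
          simp only
          have e3 : ‖y - ζ‖ + r ≤ ‖v - ζ‖ + 3 * r := by linarith
          have e4 : η / 4 * (‖y - ζ‖ + r) ≤ η / 4 * (‖v - ζ‖ + 3 * r) :=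
            mul_le_mul_of_nonneg_left e3 (by positivity)
          have e5 : η * ‖v - ζ‖ ≤ 1 * ‖v - ζ‖ := mul_le_mul_of_nonneg_right hη1 (norm_nonneg _)
          nlinarith
        rw [C3_prod_smul] at h1
        have h2 : (η / 4) ^ n ≤ (η / 4) ^ Z.length :=
          pow_le_pow_of_le_one (by positivity) (by linarith) hlen
        have h3 : 0 ≤ (Z.map g).prod := (C3_prod_pos Z g hg0).le
        calc (η / 4) ^ n * (M * (Z.map g).prod) = M * ((η / 4) ^ n * (Z.map g).prod) := by ring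
          _ ≤ M * ((η / 4) ^ Z.length * (Z.map g).prod) := by
              refine mul_le_mul_of_nonneg_left ?_ hM.le
              exact mul_le_mul_of_nonneg_right h2 h3
          _ ≤ ‖U v‖ * ‖(Z.map fun ζ => v - ζ).prod‖ :=
              mul_le_mul (hlo v hvR) h1 (by positivity) (norm_nonneg _)
    · refine ⟨0, le_rfl, fun h => absurd h hFL, ?_, fun h => absurd h (lt_irrefl _)⟩
      intro v hv
      have hvR : v ∈ closedBall y R := closedBall_subset_closedBall hrR hv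
      rcases hfl i with h | h
      · rw [h v hvR]
        simp
      · exact absurd h hFL
  choose T hT0 hTpos hTup hTlo using hT
  obtain ⟨i1, hi1⟩ := hne
  have : Nonempty ι := ⟨i1⟩
  obtain ⟨i₀, hi₀⟩ := Finite.exists_max T
  have hpos : 0 < T i₀ := lt_of_lt_of_le (hTpos i1 hi1) (hi₀ i1)
  obtain ⟨Z, hZc, hZ⟩ := hTlo i₀ hpos
  refine ⟨i₀, Z, hZc, ?_⟩
  intro η hη hη1 u hu hdist v hv
  have hηr : η * r ≤ r := by nlinarith
  have hvy : v ∈ closedBall y (2 * r) := by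
    rw [mem_closedBall] at hu hv ⊢
    have := dist_triangle v u y
    linarith
  have hvZ : ∀ ζ ∈ Z, η * r ≤ ‖v - ζ‖ := by
    intro ζ hζ
    have h1 := hdist ζ hζ
    rw [mem_closedBall, dist_eq_norm] at hv
    have e1 : u - ζ = (v - ζ) - (v - u) := by ring
    have e2 := norm_sub_le (v - ζ) (v - u)
    rw [← e1] at e2
    linarith
  have hlow := hZ η hη hη1 v hvy hvZ
  have hη4 : 0 < (η / 4) ^ n := by positivity
  refine ⟨?_, ?_⟩
  · intro h0
    rw [h0, norm_zero] at hlow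
    have := mul_pos hη4 hpos
    linarith
  · intro i
    have h1 := hTup i v hvy
    have h2 := hi₀ i
    have h3 : T i ≤ T i₀ := h2
    have e1 : (η / 4) ^ n * 4 ^ n = η ^ n := by
      rw [← mul_pow]
      congr 1
      ring
    have e2 : (8 : ℝ) ^ n = 2 ^ n * 4 ^ n := by
      rw [← mul_pow]
      norm_num
    have hC0 : 0 ≤ C := by linarith
    calc ‖f i v‖ * η ^ n ≤ (C * 2 ^ n * T i) * η ^ n :=
          mul_le_mul_of_nonneg_right h1 (by positivity)
      _ ≤ (C * 2 ^ n * T i₀) * η ^ n := by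
          refine mul_le_mul_of_nonneg_right ?_ (by positivity)
          exact mul_le_mul_of_nonneg_left h3 (by positivity)
      _ = C * 8 ^ n * ((η / 4) ^ n * T i₀) := by rw [← e1, e2]; ring
      _ ≤ C * 8 ^ n * ‖f i₀ v‖ := mul_le_mul_of_nonneg_left hlow (by positivity)

private theorem C3_sep (Z : Finset ℂ) (p : ℕ) (hZ : Z.card ≤ p) (w : ℂ) :
    ∃ s : ℂ, ‖s - w‖ ≤ 1 / 3 ∧ ∀ ζ ∈ Z, 1 / (6 * ((p : ℝ) + 1)) ≤ ‖s - ζ‖ := by
  by_contra hcon
  push Not at hcon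
  have hp : (0 : ℝ) < (p : ℝ) + 1 := by positivity
  have hk : ∀ k : Fin (p + 1), ∃ ζ ∈ Z, ‖(w + (((k : ℕ) : ℝ) / (3 * ((p : ℝ) + 1)) : ℝ)) - ζ‖ <
      1 / (6 * ((p : ℝ) + 1)) := by
    intro k
    refine hcon _ ?_
    rw [add_sub_cancel_left, Complex.norm_real, Real.norm_eq_abs, abs_of_nonneg (by positivity),
      div_le_div_iff₀ (by positivity) (by norm_num)]
    have h1 : ((k : ℕ) : ℝ) ≤ (p : ℝ) := by
      have := k.2
      exact_mod_cast (by omega : (k : ℕ) ≤ p)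
    nlinarith
  choose g hgZ hg using hk
  have hcard : Z.card < (Finset.univ : Finset (Fin (p + 1))).card := by
    rw [Finset.card_univ, Fintype.card_fin]
    omega
  obtain ⟨k, _, l, _, hkl, hgkl⟩ := Finset.exists_ne_map_eq_of_card_lt_of_maps_to hcard
    (fun k _ => hgZ k)
  have h1 := hg k
  have h2 := hg l
  rw [hgkl] at h1
  have e1 : ((w + (((k : ℕ) : ℝ) / (3 * ((p : ℝ) + 1)) : ℝ)) - g l) -
      ((w + (((l : ℕ) : ℝ) / (3 * ((p : ℝ) + 1)) : ℝ)) - g l) =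
      (((((k : ℕ) : ℝ) - ((l : ℕ) : ℝ)) / (3 * ((p : ℝ) + 1)) : ℝ) : ℂ) := by
    push_cast
    ring
  have h3 := norm_sub_le ((w + (((k : ℕ) : ℝ) / (3 * ((p : ℝ) + 1)) : ℝ)) - g l)
    ((w + (((l : ℕ) : ℝ) / (3 * ((p : ℝ) + 1)) : ℝ)) - g l)
  rw [e1, Complex.norm_real, Real.norm_eq_abs, abs_div, abs_of_pos (by positivity :
    (0 : ℝ) < 3 * ((p : ℝ) + 1))] at h3
  have h4 : (1 : ℝ) ≤ |((k : ℕ) : ℝ) - ((l : ℕ) : ℝ)| := by
    have h5 : ((k : ℕ) : ℤ) - ((l : ℕ) : ℤ) ≠ 0 := by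
      intro h
      apply hkl
      apply Fin.ext
      omega
    have h6 : (1 : ℤ) ≤ |((k : ℕ) : ℤ) - ((l : ℕ) : ℤ)| := Int.one_le_abs h5
    exact_mod_cast h6
  have h5 : 1 / (3 * ((p : ℝ) + 1)) ≤ |((k : ℕ) : ℝ) - ((l : ℕ) : ℝ)| / (3 * ((p : ℝ) + 1)) :=
    div_le_div_of_nonneg_right h4 (by positivity)
  have h6 : 1 / (3 * ((p : ℝ) + 1)) = 1 / (6 * ((p : ℝ) + 1)) + 1 / (6 * ((p : ℝ) + 1)) := by
    field_simp
    norm_num
  linarith

private theorem C3_fl (C : ℝ) : ∃ (n : ℕ) (D : ℝ), 1 ≤ D ∧ ∀ (w : ℂ) (f : ℂ → ℂ) (c : ℝ), 0 < c →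
    DifferentiableOn ℂ f (ball w 3) → (∀ s ∈ ball w 3, ‖f s‖ ≤ C * c) →
    (∃ s ∈ closedBall w 1, c ≤ C * ‖f s‖) → ∀ y ∈ closedBall w 1, FL n D (1 / 3) y f := by
  classical
  obtain ⟨p, C', hC', hz⟩ := PW.zeros C
  set δ : ℝ := 1 / (6 * ((p : ℝ) + 1)) with hδ
  have hp : (0 : ℝ) < (p : ℝ) + 1 := by positivity
  have hδ0 : 0 < δ := by positivity
  have hδ1 : δ ≤ 1 := by
    rw [hδ, div_le_one (by positivity)]
    have : (0 : ℝ) ≤ (p : ℝ) := by positivity
    linarith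
  set C3 : ℝ := max C (C' / δ ^ p) with hC3
  obtain ⟨n, D, hD, hz3⟩ := PW.zeros C3
  refine ⟨n, D ^ 2, one_le_pow₀ hD, ?_⟩
  intro w f c hc hf hle hex y hy
  obtain ⟨U, Z, hfac⟩ := hz w f c hc hf hle hex
  obtain ⟨s1, hs1, hs1Z⟩ := C3_sep Z.toFinset p ((List.toFinset_card_le Z).trans hfac.len) w
  have hs1w : s1 ∈ closedBall w 1 := by
    rw [mem_closedBall, dist_eq_norm]
    linarith
  have hs1b : s1 ∈ ball w 2 := closedBall_subset_ball (by norm_num) hs1w
  have hlow : c ≤ (C' / δ ^ p) * ‖f s1‖ := by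
    have h1 := hfac.lower s1 hs1w
    have h2 : δ ^ Z.length ≤ ‖(Z.map fun ζ => s1 - ζ).prod‖ := by
      have h3 := C3_prod_ge Z s1 (fun _ => δ) (fun _ _ => hδ0.le)
        (fun ζ hζ => hs1Z ζ (by simpa using hζ))
      simpa using h3
    have h3 : δ ^ p ≤ δ ^ Z.length := pow_le_pow_of_le_one hδ0.le hδ1 hfac.len
    rw [hfac.eq s1 hs1b, norm_mul, norm_mul, Complex.norm_real, Real.norm_eq_abs, abs_of_pos hc]
    have h4 : 0 < δ ^ p := by positivity
    rw [div_mul_eq_mul_div, le_div_iff₀ h4]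
    have h5 : 0 ≤ C' * ‖U s1‖ := by linarith
    calc c * δ ^ p ≤ c * ‖(Z.map fun ζ => s1 - ζ).prod‖ :=
          mul_le_mul_of_nonneg_left (h3.trans h2) hc.le
      _ = 1 * (c * ‖(Z.map fun ζ => s1 - ζ).prod‖) := by ring
      _ ≤ (C' * ‖U s1‖) * (c * ‖(Z.map fun ζ => s1 - ζ).prod‖) :=
          mul_le_mul_of_nonneg_right h1 (by positivity)
      _ = C' * (c * ‖U s1‖ * ‖(Z.map fun ζ => s1 - ζ).prod‖) := by ring
  -- the second factorisation
  set w' : ℂ := (w + y) / 2 with hw'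
  have hyw : ‖y - w‖ ≤ 1 := by rwa [mem_closedBall, dist_eq_norm] at hy
  have hw'w : ‖w' - w‖ ≤ 1 / 2 := by
    have e : w' - w = (y - w) / 2 := by rw [hw']; ring
    rw [e, norm_div]
    have : ‖(2 : ℂ)‖ = 2 := by norm_num
    rw [this]
    linarith
  have hw'y : ‖y - w'‖ ≤ 1 / 2 := by
    have e : y - w' = (y - w) / 2 := by rw [hw']; ring
    rw [e, norm_div]
    have : ‖(2 : ℂ)‖ = 2 := by norm_num
    rw [this]
    linarith
  have h56 : ‖(5 / 6 : ℂ)‖ = 5 / 6 := by norm_num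
  have hmap : ∀ t ∈ ball (0 : ℂ) 3, w' + 5 / 6 * t ∈ ball w 3 := by
    intro t ht
    rw [mem_ball_zero_iff] at ht
    rw [mem_ball, dist_eq_norm]
    have e : w' + 5 / 6 * t - w = (w' - w) + 5 / 6 * t := by ring
    rw [e]
    have h1 := norm_add_le (w' - w) (5 / 6 * t)
    rw [norm_mul, h56] at h1
    linarith
  set F : ℂ → ℂ := fun t => f (w' + 5 / 6 * t) with hF
  have hFd : DifferentiableOn ℂ F (ball 0 3) := by
    refine hf.comp ?_ hmap
    exact ((differentiable_const _).add ((differentiable_const _).mul differentiable_id)).differentiableOn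
  have hFle : ∀ t ∈ ball (0 : ℂ) 3, ‖F t‖ ≤ C3 * c := by
    intro t ht
    exact (hle _ (hmap t ht)).trans (mul_le_mul_of_nonneg_right (le_max_left _ _) hc.le)
  have hFex : ∃ t ∈ closedBall (0 : ℂ) 1, c ≤ C3 * ‖F t‖ := by
    refine ⟨6 / 5 * (s1 - w'), ?_, ?_⟩
    · rw [mem_closedBall_zero_iff, norm_mul]
      have e1 : ‖(6 / 5 : ℂ)‖ = 6 / 5 := by norm_num
      have e2 : s1 - w' = (s1 - w) - (w' - w) := by ring
      have e3 := norm_sub_le (s1 - w) (w' - w)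
      rw [← e2] at e3
      rw [e1]
      linarith
    · have e : F (6 / 5 * (s1 - w')) = f s1 := by
        rw [hF]
        simp only
        congr 1
        ring
      rw [e]
      exact hlow.trans (mul_le_mul_of_nonneg_right (le_max_right _ _) (norm_nonneg _))
  obtain ⟨V, Y, hfac2⟩ := hz3 0 F c hc hFd hFle hFex
  have hinv : ∀ s ∈ closedBall y (1 / 3), 6 / 5 * (s - w') ∈ closedBall (0 : ℂ) 1 := by
    intro s hs
    rw [mem_closedBall, dist_eq_norm] at hs
    rw [mem_closedBall_zero_iff, norm_mul]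
    have e1 : ‖(6 / 5 : ℂ)‖ = 6 / 5 := by norm_num
    have e2 : s - w' = (s - y) + (y - w') := by ring
    have e3 := norm_add_le (s - y) (y - w')
    rw [← e2] at e3
    rw [e1]
    linarith
  have hD0 : (0 : ℝ) < D := by linarith
  refine ⟨Y.map fun ζ => w' + 5 / 6 * ζ, fun s => c * V (6 / 5 * (s - w')) * (6 / 5) ^ Y.length,
    c / D * (6 / 5) ^ Y.length, ?_, by positivity, ?_, ?_, ?_⟩
  · simpa using hfac2.len
  · intro s hs
    have h1 := hfac2.eq (6 / 5 * (s - w')) (closedBall_subset_ball (by norm_num) (hinv s hs))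
    have e : F (6 / 5 * (s - w')) = f s := by
      rw [hF]
      simp only
      congr 1
      ring
    rw [e] at h1
    rw [h1, List.map_map]
    have e2 : ∀ L : List ℂ, (L.map (fun ζ => 6 / 5 * (s - w') - ζ)).prod =
        (6 / 5) ^ L.length * (L.map ((fun ζ => s - ζ) ∘ fun ζ => w' + 5 / 6 * ζ)).prod := by
      intro L
      induction L with
      | nil => simp
      | cons x L ih =>
        simp only [List.map_cons, List.prod_cons, List.length_cons, ih, Function.comp]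
        ring
    rw [e2 Y]
    ring
  · intro s hs
    have h1 := hfac2.upper (6 / 5 * (s - w')) (closedBall_subset_ball (by norm_num) (hinv s hs))
    rw [norm_mul, norm_mul, Complex.norm_real, Real.norm_eq_abs, abs_of_pos hc, norm_pow]
    have e1 : ‖(6 / 5 : ℂ)‖ = 6 / 5 := by norm_num
    rw [e1]
    have e2 : D ^ 2 * (c / D * (6 / 5) ^ Y.length) = c * D * (6 / 5) ^ Y.length := by
      field_simp
    rw [e2]
    exact mul_le_mul_of_nonneg_right (mul_le_mul_of_nonneg_left h1 hc.le) (by positivity)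
  · intro s hs
    have h1 := hfac2.lower (6 / 5 * (s - w')) (hinv s hs)
    rw [norm_mul, norm_mul, Complex.norm_real, Real.norm_eq_abs, abs_of_pos hc, norm_pow]
    have e1 : ‖(6 / 5 : ℂ)‖ = 6 / 5 := by norm_num
    rw [e1]
    refine mul_le_mul_of_nonneg_right ?_ (by positivity)
    rw [div_le_iff₀ hD0]
    nlinarith

theorem fam_fl {Ω Cn : Set ℂ} {z : Fin 3 → ℂ → ℂ} {ρ : ℂ → ℝ} (hF : PW.Fam Ω Cn z ρ) (d : ℕ) :
    ∃ (n : ℕ) (C : ℝ), 1 ≤ C ∧ ∀ w ∈ Cn, ∀ G : MvPolynomial (Fin 3) ℂ, G ≠ 0 →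
      G.totalDegree ≤ d → ∀ y ∈ closedBall w 1,
        FL n C (1 / 3) y (fun s => eval (fun a => z a s) G) := by
  obtain ⟨C, _, hdbl⟩ := hF.dbl d
  obtain ⟨n, D, hD, hfl⟩ := C3_fl (C : ℝ)
  refine ⟨n, D, hD, ?_⟩
  intro w hw G hG hd y hy
  obtain ⟨c, hc, _, hup, hlo⟩ := hdbl w hw G hG hd
  refine hfl w _ c hc ?_ hup hlo y hy
  have hsub := hF.ball w hw
  have he : (fun s => eval (fun a => z a s) G) =
      fun s => ∑ d ∈ G.support, G.coeff d * ∏ i, z i s ^ d i := by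
    funext s
    rw [eval_eq']
  rw [he]
  refine DifferentiableOn.fun_sum fun d _ => ?_
  refine DifferentiableOn.mul (differentiableOn_const _) ?_
  refine DifferentiableOn.fun_finsetProd fun i _ => ?_
  exact ((hF.an i).mono hsub).pow _

end Pool.Agent.LGO.PWC
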