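import Mathlib
import Pool.Agent.LGO.PWC.Grow

/-!
# LGO/PWC: relations over `ℂ[z]`

PROOF of `relns`.  Consider the finite sets `T` of exponents such that the functions `z ^ γ v ^ α` on `S`
(`γ : Fin 3 → Fin (b + 1)`, `α ∈ T`) are linearly independent; the empty set is one of them.  Take one of maximal
cardinality `ρ` and enumerate it by `t : Fin ρ → _` (injective).  `grow` gives the first inequality; `t` injective gives
`ρ ≤ (b + 1) ^ 8`.  For `α` not in `T` the family for `T ∪ {α}` is linearly dependent: there are polynomials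
`P_α, Q_(α j)` of degree `≤ b` in every variable (so of total degree `≤ 3 b`), not all `0`, with
`P_α(z) v ^ α = ∑_j Q_(α j)(z) v ^ (t j)` on `S`; if `P_α = 0` this would be a relation for `T`, so `P_α ≠ 0`.  For `α = t i` take
`P_α = 1`, `Q_(α j) = 1` if `i = j`, `0` otherwise.  `P = ∏_α P_α`, `ξ_(α j) = (∏_(β ≠ α) P_β) Q_(α j)`.
For `α = t i`: `ξ = P` if `i = j`, otherwise `0`.  Degrees: `(b + 1) ^ 8` factors of degree `≤ 3 b`.
-/

namespace Pool.Agent.LGO.PWC

open Metric MvPolynomial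

/-- the exponent with values `γ` -/
private noncomputable def Relns_ex {b : ℕ} (γ : Fin 3 → Fin (b + 1)) : Fin 3 →₀ ℕ :=
  Finsupp.equivFunOnFinite.symm fun i => (γ i : ℕ)

private theorem Relns_ex_inj {b : ℕ} :
    Function.Injective (Relns_ex : (Fin 3 → Fin (b + 1)) → Fin 3 →₀ ℕ) := by
  intro g h hgh
  funext i
  apply Fin.ext
  have h1 := DFunLike.congr_fun hgh i
  simpa [Relns_ex] using h1

/-- the polynomial with coefficients `h` -/
private noncomputable def Relns_po {b : ℕ} (h : (Fin 3 → Fin (b + 1)) → ℂ) : MvPolynomial (Fin 3) ℂ :=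
  ∑ γ, monomial (Relns_ex γ) (h γ)

private theorem Relns_po_eval {b : ℕ} (h : (Fin 3 → Fin (b + 1)) → ℂ) (x : Fin 3 → ℂ) :
    eval x (Relns_po h) = ∑ γ, h γ * ∏ i, x i ^ (γ i : ℕ) := by
  simp only [Relns_po, map_sum, eval_monomial]
  refine Finset.sum_congr rfl fun γ _ => ?_
  rw [Finsupp.prod_fintype _ _ (fun _ => pow_zero _)]
  rfl

private theorem Relns_po_deg {b : ℕ} (h : (Fin 3 → Fin (b + 1)) → ℂ) :
    (Relns_po h).totalDegree ≤ 3 * b := by
  refine totalDegree_finsetSum_le fun γ _ => ?_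
  refine (totalDegree_monomial_le _ _).trans ?_
  rw [Finsupp.sum_fintype _ _ (fun _ => rfl)]
  have h1 : ∀ i ∈ (Finset.univ : Finset (Fin 3)), Relns_ex γ i ≤ b := fun i _ =>
    Nat.lt_succ_iff.1 (γ i).isLt
  refine (Finset.sum_le_card_nsmul _ _ _ h1).trans ?_
  simp

private theorem Relns_po_zero {b : ℕ} {h : (Fin 3 → Fin (b + 1)) → ℂ} (h0 : Relns_po h = 0) :
    ∀ γ, h γ = 0 := by
  intro γ
  have h1 : (Relns_po h).coeff (Relns_ex γ) = h γ := by
    simp only [Relns_po, coeff_sum, coeff_monomial]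
    rw [Finset.sum_eq_single γ]
    · simp
    · intro c _ hc
      rw [if_neg fun he => hc (Relns_ex_inj he)]
    · intro hn
      exact absurd (Finset.mem_univ γ) hn
  rw [← h1, h0, coeff_zero]

/-- the family of functions on `S` -/
private noncomputable def Relns_fam (z : Fin 3 → ℂ → ℂ) (v : ℂ → Fin 8 → ℤ) (S : Finset ℂ) {b ρ : ℕ}
    (t : Fin ρ → Fin 8 → Fin (b + 1)) (p : (Fin 3 → Fin (b + 1)) × Fin ρ) (s : S) : ℂ :=
  (∏ i, z i (s : ℂ) ^ (p.1 i : ℕ)) * mon v (t p.2) (s : ℂ)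

private theorem Relns_max (z : Fin 3 → ℂ → ℂ) (v : ℂ → Fin 8 → ℤ) (S : Finset ℂ) (b : ℕ) :
    ∃ (ρ : ℕ) (t : Fin ρ → Fin 8 → Fin (b + 1)), Function.Injective t ∧ ρ ≤ (b + 1) ^ 8 ∧
      LinearIndependent ℂ (Relns_fam z v S t) ∧
      ∀ α, α ∉ Set.range t → ¬ LinearIndependent ℂ (Relns_fam z v S (Fin.cons α t)) := by
  classical
  let G : ℕ → Prop := fun ρ => ∃ t : Fin ρ → Fin 8 → Fin (b + 1), Function.Injective t ∧
    LinearIndependent ℂ (Relns_fam z v S t)
  have hcard : ∀ ρ, ∀ t : Fin ρ → Fin 8 → Fin (b + 1), Function.Injective t → ρ ≤ (b + 1) ^ 8 := by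
    intro ρ t ht
    have h1 := Fintype.card_le_of_injective t ht
    simpa using h1
  have h0 : G 0 := by
    refine ⟨Fin.elim0, fun i => i.elim0, ?_⟩
    exact linearIndependent_empty_type
  have hG := Nat.findGreatest_spec (P := G) (Nat.zero_le ((b + 1) ^ 8)) h0
  obtain ⟨t, ht, hli⟩ := hG
  refine ⟨_, t, ht, hcard _ t ht, hli, fun α hα hcon => ?_⟩
  have hinj : Function.Injective (Fin.cons α t : Fin (Nat.findGreatest G ((b + 1) ^ 8) + 1) →
      Fin 8 → Fin (b + 1)) := Fin.cons_injective_iff.2 ⟨hα, ht⟩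
  have h1 := hcard _ _ hinj
  have h2 : G (Nat.findGreatest G ((b + 1) ^ 8) + 1) := ⟨_, hinj, hcon⟩
  have h3 := Nat.le_findGreatest (P := G) h1 h2
  omega

private theorem Relns_one {z : Fin 3 → ℂ → ℂ} {v : ℂ → Fin 8 → ℤ} {S : Finset ℂ} {b ρ : ℕ}
    {t : Fin ρ → Fin 8 → Fin (b + 1)} (ht : Function.Injective t)
    (hli : LinearIndependent ℂ (Relns_fam z v S t))
    (hmax : ∀ α, α ∉ Set.range t → ¬ LinearIndependent ℂ (Relns_fam z v S (Fin.cons α t)))
    (α : Fin 8 → Fin (b + 1)) : ∃ (P : MvPolynomial (Fin 3) ℂ) (Q : Fin ρ → MvPolynomial (Fin 3) ℂ),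
      P ≠ 0 ∧ P.totalDegree ≤ 3 * b ∧ (∀ j, (Q j).totalDegree ≤ 3 * b) ∧
      (∀ s ∈ S, eval (fun a => z a s) P * mon v α s =
        ∑ j, eval (fun a => z a s) (Q j) * mon v (t j) s) ∧
      ∀ i, t i = α → P = 1 ∧ ∀ j, Q j = if i = j then 1 else 0 := by
  classical
  by_cases hα : α ∈ Set.range t
  · obtain ⟨i, rfl⟩ := hα
    refine ⟨1, fun j => if i = j then 1 else 0, one_ne_zero, by simp, ?_, ?_, ?_⟩
    · intro j
      dsimp only
      split_ifs <;> simp
    · intro s _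
      dsimp only
      rw [Finset.sum_eq_single i]
      · simp
      · intro j _ hj
        rw [if_neg (Ne.symm hj)]
        simp
      · intro h
        exact absurd (Finset.mem_univ i) h
    · intro i' hi'
      have h1 := ht hi'
      subst h1
      exact ⟨rfl, fun j => rfl⟩
  · have h1 := hmax α hα
    rw [Fintype.not_linearIndependent_iff] at h1
    obtain ⟨g, hg, p, hp⟩ := h1
    have hg' : ∀ s ∈ S, ∑ γ : Fin 3 → Fin (b + 1), ∑ j : Fin (ρ + 1), g (γ, j) *
        ((∏ i, z i s ^ (γ i : ℕ)) * mon v ((Fin.cons α t : Fin (ρ + 1) → Fin 8 → Fin (b + 1)) j) s) = 0 := by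
      intro s hs
      have h2 := congrFun hg ⟨s, hs⟩
      rw [Finset.sum_apply, Fintype.sum_prod_type] at h2
      exact h2
    have hval : ∀ s ∈ S, (∑ γ : Fin 3 → Fin (b + 1), g (γ, 0) * ∏ i, z i s ^ (γ i : ℕ)) * mon v α s +
        ∑ j : Fin ρ, (∑ γ : Fin 3 → Fin (b + 1), g (γ, j.succ) * ∏ i, z i s ^ (γ i : ℕ)) *
          mon v (t j) s = 0 := by
      intro s hs
      rw [← hg' s hs]
      simp only [Fin.sum_univ_succ, Fin.cons_zero, Fin.cons_succ, Finset.sum_add_distrib]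
      rw [Finset.sum_mul, Finset.sum_comm (s := Finset.univ) (t := Finset.univ)]
      congr 1
      · exact Finset.sum_congr rfl fun γ _ => by ring
      · refine Finset.sum_congr rfl fun γ _ => ?_
        rw [Finset.sum_mul]
        exact Finset.sum_congr rfl fun j _ => by ring
    refine ⟨Relns_po fun γ => g (γ, 0), fun j => Relns_po fun γ => - g (γ, j.succ), ?_,
      Relns_po_deg _, fun j => Relns_po_deg _, ?_, fun i hi => absurd ⟨i, hi⟩ hα⟩
    · intro h0
      have h2 := Relns_po_zero h0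
      have h3 : ∀ q : (Fin 3 → Fin (b + 1)) × Fin ρ, g (q.1, q.2.succ) = 0 := by
        rw [Fintype.linearIndependent_iff] at hli
        refine hli (fun q => g (q.1, q.2.succ)) ?_
        funext s
        rw [Finset.sum_apply, Fintype.sum_prod_type, Pi.zero_apply]
        have h4 := hval s s.2
        simp only [h2, zero_mul, Finset.sum_const_zero, zero_add] at h4
        rw [← h4, Finset.sum_comm]
        refine Finset.sum_congr rfl fun j _ => ?_
        rw [Finset.sum_mul]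
        refine Finset.sum_congr rfl fun γ _ => ?_
        simp only [Pi.smul_apply, smul_eq_mul, Relns_fam]
        ring
      apply hp
      obtain ⟨γ, j⟩ := p
      refine Fin.cases ?_ (fun j => ?_) j
      · exact h2 γ
      · exact h3 (γ, j)
    · intro s hs
      have h5 := hval s hs
      simp only [Relns_po_eval, neg_mul, Finset.sum_neg_distrib]
      linear_combination h5

theorem relns {z : Fin 3 → ℂ → ℂ} {v : ℂ → Fin 8 → ℤ} {S : Finset ℂ} (hS : ∀ s ∈ S, Rel z v s)
    (b : ℕ) : ∃ (ρ : ℕ) (t : Fin ρ → Fin 8 → Fin (b + 1)) (P : MvPolynomial (Fin 3) ℂ)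
      (ξ : (Fin 8 → Fin (b + 1)) → Fin ρ → MvPolynomial (Fin 3) ℂ),
      ρ * (b + 1) ^ 3 ≤ (3 * b + 1) * rk v S (2 * b) ∧ ρ ≤ (b + 1) ^ 8 ∧ P ≠ 0 ∧
      P.totalDegree ≤ 3 * b * (b + 1) ^ 8 ∧
      (∀ α j, (ξ α j).totalDegree ≤ 3 * b * (b + 1) ^ 8) ∧
      (∀ i j, ξ (t i) j = if i = j then P else 0) ∧
      ∀ s ∈ S, ∀ α, eval (fun a => z a s) P * mon v α s =
        ∑ j, eval (fun a => z a s) (ξ α j) * mon v (t j) s := by
  classical
  obtain ⟨ρ, t, ht, hρ, hli, hmax⟩ := Relns_max z v S b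
  choose P Q hP0 hPd hQd hrel hone using Relns_one ht hli hmax
  have hcard : (Finset.univ : Finset (Fin 8 → Fin (b + 1))).card = (b + 1) ^ 8 := by
    simp
  have hpr : ∀ α, ∏ β, P β = P α * ∏ β ∈ Finset.univ.erase α, P β := fun α =>
    (Finset.mul_prod_erase Finset.univ P (Finset.mem_univ α)).symm
  refine ⟨ρ, t, ∏ β, P β, fun α j => (∏ β ∈ Finset.univ.erase α, P β) * Q α j, grow hS t hli, hρ,
    Finset.prod_ne_zero_iff.2 fun β _ => hP0 β, ?_, ?_, ?_, ?_⟩
  · refine (totalDegree_finsetProd _ _).trans ?_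
    refine (Finset.sum_le_card_nsmul _ _ _ (fun β _ => hPd β)).trans ?_
    rw [hcard, smul_eq_mul, mul_comm]
  · intro α j
    refine (totalDegree_mul _ _).trans ?_
    have h1 : (∏ β ∈ Finset.univ.erase α, P β).totalDegree ≤
        (Finset.univ.erase α).card • (3 * b) :=
      (totalDegree_finsetProd _ _).trans (Finset.sum_le_card_nsmul _ _ _ (fun β _ => hPd β))
    have h2 := hQd α j
    rw [Finset.card_erase_of_mem (Finset.mem_univ α), hcard, smul_eq_mul] at h1
    have h3 : 0 < (b + 1) ^ 8 := by positivity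
    obtain ⟨m, hm⟩ : ∃ m, (b + 1) ^ 8 = m + 1 := ⟨(b + 1) ^ 8 - 1, by omega⟩
    rw [hm] at h1 ⊢
    rw [Nat.add_sub_cancel] at h1
    calc _ ≤ m * (3 * b) + 3 * b := add_le_add h1 h2
      _ = 3 * b * (m + 1) := by ring
  · intro i j
    obtain ⟨h1, h2⟩ := hone (t i) i rfl
    dsimp only
    rw [h2 j, hpr (t i), h1, one_mul]
    split_ifs <;> simp
  · intro s hs α
    rw [hpr α, map_mul]
    have h1 := hrel α s hs
    simp only [map_mul]
    calc eval (fun a => z a s) (P α) * eval (fun a => z a s) (∏ β ∈ Finset.univ.erase α, P β) *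
          mon v α s = eval (fun a => z a s) (∏ β ∈ Finset.univ.erase α, P β) *
            (eval (fun a => z a s) (P α) * mon v α s) := by ring
      _ = _ := by
        rw [h1, Finset.mul_sum]
        exact Finset.sum_congr rfl fun j _ => by ring

end Pool.Agent.LGO.PWC
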