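import Mathlib
import Pool.Agent.LGO.PWC.Step
import Pool.Agent.LGO.PWC.Scale

/-!
# LGO/PWC: Theorem C

PROOF of `disc_count`.  `j` from `small` for `d / 2`, `e₂ = (1/2) ^ j`, `e = d / 2`, `i₀ = j + 17`.  Let `H₀` be larger than `2` and than the
constants of `step hF (2 ^ i) e₂ e` for `i < 9 i₀ + 9`.  Let `H ≥ H₀`, `w ∈ Cn`, `|w| ≤ H`, `v` from `exists_rel H z`.
CLAIM (induction on `k`): every finite set `S` of points `s ∈ closedBall w 1` with `Pt H z s` and `psi (rk v S) i₀ < 2 ^ k` has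
`card S < H ^ (4 e₂ k + e)`.
`k = 0`: if `S` is not empty, `psi ≥ 1` (`rk_pos`, `psi_pos`); the empty set satisfies `0 < H ^ ..`.
Step: suppose `psi (rk v S) i₀ < 2 ^ (k + 1)` and `card S ≥ H ^ (4 e₂ (k + 1) + e) ≥ H ^ e`.  `S` is not empty; `scale_exists` for
`h = rk v S` (`rk_pos`, `rk_le`): `i₀ ≤ i < 9 i₀ + 9`, `rk v S (2 ^ (i + 1)) ≤ 2 ^ 9 rk v S (2 ^ i)`.  `step` with `b = 2 ^ i` (`2 * 2 ^ i = 2 ^ (i + 1)`): `S' ⊆ S`,
`card S' ≥ card S H ^ (- 4 e₂) ≥ H ^ (4 e₂ k + e)` and `e₂ (2 ^ i + 1) rk v S' (2 ^ i) ≤ 60 * 512 rk v S (2 ^ i)`; `e₂ 2 ^ i ≥ 2 ^ 17`, so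
`2 rk v S' (2 ^ i) ≤ rk v S (2 ^ i)` and `psi (rk v S') i₀ ≤ psi (rk v S) i₀ / 2 < 2 ^ k` (`psi_half`, `rk_mono`): contradiction to the induction hypothesis.
Now `psi ≤ 2 ^ (8 (9 i₀ + 10) ^ 2) < 2 ^ (8 (9 i₀ + 10) ^ 2 + 1)`, so `card S ≤ H ^ (4 e₂ (8 (9 i₀ + 10) ^ 2 + 1) + e) ≤ H ^ d`.
-/

namespace Pool.Agent.LGO.PWC

open Metric MvPolynomial

variable {Ω Cn : Set ℂ} {z : Fin 3 → ℂ → ℂ} {ρ : ℂ → ℝ}

/-- **Theorem C** -/
theorem disc_count (hF : PW.Fam Ω Cn z ρ) : ∀ d : ℝ, 0 < d → ∃ H₀ : ℝ, ∀ H : ℝ, H₀ ≤ H →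
    ∀ w ∈ Cn, ‖w‖ ≤ H → ∀ S : Finset ℂ, (∀ s ∈ S, s ∈ closedBall w 1 ∧ PW.Pt H z s) →
      (S.card : ℝ) ≤ H ^ d := by
  classical
  intro d hd
  obtain ⟨j, hj⟩ := small (half_pos hd)
  set e₂ : ℝ := (1 / 2 : ℝ) ^ j with he₂
  have h2 : 0 < e₂ := by positivity
  have h2' : e₂ ≤ 1 := pow_le_one₀ (by norm_num) (by norm_num)
  set e : ℝ := d / 2 with he
  have he0 : 0 < e := half_pos hd
  set i₀ : ℕ := j + 17 with hi₀
  choose H₁ hH₁ using fun i : ℕ => step hF (2 ^ i) h2 h2' he0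
  have ev : ∀ᶠ H : ℝ in Filter.atTop, ∀ i ∈ Finset.range (9 * i₀ + 9), H₁ i ≤ H := by
    rw [Filter.eventually_all_finset]
    intro i _
    exact Filter.eventually_ge_atTop _
  obtain ⟨H₀, hH₀⟩ := Filter.eventually_atTop.1 (ev.and (Filter.eventually_ge_atTop (2 : ℝ)))
  refine ⟨H₀, ?_⟩
  intro H hH w hw hwH S hS
  obtain ⟨hHi, hH2⟩ := hH₀ H hH
  have hH0 : 0 < H := by linarith
  have hH1 : 1 ≤ H := by linarith
  obtain ⟨v, hv⟩ := exists_rel H z
  have key : ∀ k : ℕ, ∀ S : Finset ℂ, (∀ s ∈ S, s ∈ closedBall w 1 ∧ PW.Pt H z s) →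
      psi (rk v S) i₀ < 2 ^ k → (S.card : ℝ) < H ^ (4 * e₂ * k + e) := by
    intro k
    induction k with
    | zero =>
      intro S hS hpsi
      have hpos : 0 < H ^ (4 * e₂ * ((0 : ℕ) : ℝ) + e) := Real.rpow_pos_of_pos hH0 _
      rcases S.eq_empty_or_nonempty with h | h
      · rw [h]
        simpa using hpos
      · have h3 : 0 < psi (rk v S) i₀ := psi_pos (fun b => rk_pos v h b) i₀
        rw [pow_zero] at hpsi
        omega
    | succ k ih =>
      intro S hS hpsi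
      by_contra hcon
      rw [not_lt] at hcon
      have hpos : 0 < H ^ (4 * e₂ * ((k + 1 : ℕ) : ℝ) + e) := Real.rpow_pos_of_pos hH0 _
      have hne : S.Nonempty := by
        rcases S.eq_empty_or_nonempty with h | h
        · rw [h] at hcon
          simp only [Finset.card_empty, Nat.cast_zero] at hcon
          linarith
        · exact h
      obtain ⟨i, hi, hi', hsc⟩ := scale_exists (h := rk v S) (fun b => rk_pos v hne b)
        (fun b => rk_le v S b) i₀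
      have hcard : H ^ e ≤ (S.card : ℝ) := by
        refine le_trans (Real.rpow_le_rpow_of_exponent_le hH1 ?_) hcon
        have : (0 : ℝ) ≤ 4 * e₂ * ((k + 1 : ℕ) : ℝ) := by positivity
        linarith
      obtain ⟨S', hS', hmany, hrk⟩ := hH₁ i H (hHi i (Finset.mem_range.2 hi')) w hw hwH v S
        (fun s hs => ⟨(hS s hs).1, (hS s hs).2, (hv s (hS s hs).2).1, (hv s (hS s hs).2).2⟩) hcard
      have hhalf : 2 * rk v S' (2 ^ i) ≤ rk v S (2 ^ i) := by
        have h3 : 2 * 2 ^ i = 2 ^ (i + 1) := by ring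
        rw [h3] at hrk
        have h4 : (rk v S (2 ^ (i + 1)) : ℝ) ≤ 2 ^ 9 * rk v S (2 ^ i) := by exact_mod_cast hsc
        have h5 : (2 : ℝ) ^ 17 ≤ e₂ * ((2 ^ i : ℕ) : ℝ) := by
          obtain ⟨l, rfl⟩ := Nat.exists_eq_add_of_le hi
          have h6 : e₂ * ((2 ^ (i₀ + l) : ℕ) : ℝ) = 2 ^ 17 * 2 ^ l := by
            rw [he₂, hi₀]
            push_cast
            rw [pow_add, pow_add]
            have h7 : (1 / 2 : ℝ) ^ j * 2 ^ j = 1 := by
              rw [← mul_pow]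
              norm_num
            linear_combination (2 ^ 17 * 2 ^ l : ℝ) * h7
          rw [h6]
          have h8 : (1 : ℝ) ≤ 2 ^ l := one_le_pow₀ (by norm_num)
          linarith
        have h9 : (2 : ℝ) ^ 17 * rk v S' (2 ^ i) ≤ 60 * (2 ^ 9 * rk v S (2 ^ i)) := by
          have h10 : e₂ * ((2 ^ i : ℕ) : ℝ) * rk v S' (2 ^ i) ≤
              e₂ * (((2 ^ i : ℕ) : ℝ) + 1) * rk v S' (2 ^ i) := by
            refine mul_le_mul_of_nonneg_right ?_ (by positivity)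
            exact mul_le_mul_of_nonneg_left (by linarith) h2.le
          have h11 : (2 : ℝ) ^ 17 * rk v S' (2 ^ i) ≤ e₂ * ((2 ^ i : ℕ) : ℝ) * rk v S' (2 ^ i) :=
            mul_le_mul_of_nonneg_right h5 (by positivity)
          linarith
        have h12 : (2 : ℝ) * rk v S' (2 ^ i) ≤ rk v S (2 ^ i) := by
          have : (0 : ℝ) ≤ rk v S (2 ^ i) := by positivity
          norm_num at h9
          linarith
        exact_mod_cast h12
      have hpsi' : psi (rk v S') i₀ < 2 ^ k := by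
        have h3 := psi_half (h := rk v S) (h' := rk v S') (fun b => rk_mono v hS' b) hi hi' hhalf
        rw [pow_succ] at hpsi
        omega
      have h3 := ih S' (fun s hs => hS s (hS' hs)) hpsi'
      have h4 : H ^ (4 * e₂ * (k : ℝ) + e) ≤ (S.card : ℝ) * H ^ (-(4 * e₂)) := by
        have h5 : H ^ (4 * e₂ * (k : ℝ) + e) =
            H ^ (4 * e₂ * ((k + 1 : ℕ) : ℝ) + e) * H ^ (-(4 * e₂)) := by
          rw [← Real.rpow_add hH0]
          congr 1
          push_cast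
          ring
        rw [h5]
        exact mul_le_mul_of_nonneg_right hcon (Real.rpow_nonneg hH0.le _)
      linarith
  have hfin := key (8 * (9 * i₀ + 10) ^ 2 + 1) S hS (lt_of_le_of_lt
    (psi_le (h := rk v S) (fun b => rk_le v S b) i₀)
    (Nat.pow_lt_pow_right (by norm_num) (Nat.lt_succ_self _)))
  refine hfin.le.trans (Real.rpow_le_rpow_of_exponent_le hH1 ?_)
  have h3 : 4 * e₂ * ((8 * (9 * i₀ + 10) ^ 2 + 1 : ℕ) : ℝ) ≤ d / 2 := by
    rw [hi₀]
    push_cast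
    exact hj
  rw [he]
  linarith

end Pool.Agent.LGO.PWC
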