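import Mathlib
import Pool.Agent.LGO.PWC.Main

/-!
# LGO/PWC: Theorem C, the number of points in a unit disc (architect: helper14, note 3020)
-/

namespace Pool.Agent.LGO.PW

open MvPolynomial Metric

/-- **Theorem C**: a unit disc contains at most `H ^ δ` points -/
theorem disc_count {Ω Cn : Set ℂ} {z : Fin 3 → ℂ → ℂ} {ρ : ℂ → ℝ} (hF : Fam Ω Cn z ρ) :
    ∀ δ : ℝ, 0 < δ → ∃ H₀ : ℝ, ∀ H : ℝ, H₀ ≤ H → ∀ w ∈ Cn, ‖w‖ ≤ H → ∀ S : Finset ℂ,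
      (∀ s ∈ S, s ∈ closedBall w 1 ∧ Pt H z s) → (S.card : ℝ) ≤ H ^ δ :=
  PWC.disc_count hF

end Pool.Agent.LGO.PW
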